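import Pool.Agent.Lib.MP_dd84fd_nt.ZR.Sum

/-!
# ZR-Pz: a nontrivial character with a large sum over primes has a zero near `1`

`∑_{p ≤ y} χ(p)` and `∑_{n ≤ y} al χ n` differ by the proper prime powers: at most `√y log y`-many terms
of modulus at most `1`; contradiction to `sum_small c (B + 1)` if there is no zero; `ρ.re < 1`:
`DirichletCharacter.LFunction_ne_zero_of_one_le_re`.
-/

set_option autoImplicit false

namespace Pool.MP_dd84fd_nt.ZR

open Finset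

private theorem al_norm_pz {q : ℕ} (χ : DirichletCharacter ℂ q) (n : ℕ) : ‖al χ n‖ ≤ 1 := by
  unfold al
  rw [norm_mul, Complex.norm_real, Real.norm_eq_abs]
  have h1 : ‖χ (n : ZMod q)‖ ≤ 1 := DirichletCharacter.norm_le_one χ _
  have h2 : |ArithmeticFunction.vonMangoldt n / Real.log n| ≤ 1 := by
    have h3 : 0 ≤ Real.log n := Real.log_natCast_nonneg n
    rw [abs_of_nonneg (div_nonneg ArithmeticFunction.vonMangoldt_nonneg h3)]
    exact div_le_one_of_le₀ ArithmeticFunction.vonMangoldt_le_log h3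
  calc ‖χ (n : ZMod q)‖ * |ArithmeticFunction.vonMangoldt n / Real.log n| ≤ 1 * 1 :=
        mul_le_mul h1 h2 (abs_nonneg _) zero_le_one
    _ = 1 := one_mul 1

private theorem al_prime_pz {q : ℕ} (χ : DirichletCharacter ℂ q) {p : ℕ} (hp : p.Prime) :
    al χ p = χ p := by
  unfold al
  have h : Real.log p ≠ 0 := (Real.log_pos (by exact_mod_cast hp.one_lt)).ne'
  rw [ArithmeticFunction.vonMangoldt_apply_prime hp, div_self h, Complex.ofReal_one, mul_one]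

private theorem al_zero_pz {q : ℕ} (χ : DirichletCharacter ℂ q) {n : ℕ} (hn : ¬ IsPrimePow n) :
    al χ n = 0 := by
  unfold al
  rw [ArithmeticFunction.vonMangoldt_eq_zero_iff.2 hn, zero_div, Complex.ofReal_zero, mul_zero]

private theorem card_pow_pz (y : ℕ) :
    ((Icc 1 y).filter fun n => ¬ n.Prime ∧ IsPrimePow n).card ≤ Nat.sqrt y * Nat.log 2 y := by
  classical
  have hsub : ((Icc 1 y).filter fun n => ¬ n.Prime ∧ IsPrimePow n) ⊆
      ((Icc 1 (Nat.sqrt y)) ×ˢ (Icc 1 (Nat.log 2 y))).image (fun a => a.1 ^ a.2) := by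
    intro n hn
    obtain ⟨hn1, hn2, hn3⟩ := mem_filter.1 hn
    obtain ⟨hn4, hn5⟩ := mem_Icc.1 hn1
    obtain ⟨p, k, hp, hk, rfl⟩ := (isPrimePow_nat_iff n).1 hn3
    have hk2 : 2 ≤ k := by
      by_contra hc
      have : k = 1 := by omega
      rw [this, pow_one] at hn2
      exact hn2 hp
    refine mem_image.2 ⟨(p, k), mem_product.2 ⟨mem_Icc.2 ⟨hp.one_lt.le, ?_⟩, mem_Icc.2 ⟨hk, ?_⟩⟩, rfl⟩
    · rw [Nat.le_sqrt]
      calc p * p = p ^ 2 := (sq p).symm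
        _ ≤ p ^ k := Nat.pow_le_pow_right hp.pos hk2
        _ ≤ y := hn5
    · refine Nat.le_log_of_pow_le (by norm_num) ?_
      exact (Nat.pow_le_pow_left hp.two_le k).trans hn5
  refine (card_le_card hsub).trans (card_image_le.trans ?_)
  rw [card_product, Nat.card_Icc, Nat.card_Icc, Nat.add_sub_cancel, Nat.add_sub_cancel]

private theorem diff_le_pz {q : ℕ} (χ : DirichletCharacter ℂ q) (y : ℕ) :
    ‖∑ p ∈ (Icc 1 y).filter Nat.Prime, χ p‖ ≤
      ‖∑ n ∈ Icc 1 y, al χ n‖ + Nat.sqrt y * Nat.log 2 y := by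
  classical
  have h1 : ∑ n ∈ Icc 1 y, al χ n = ∑ p ∈ (Icc 1 y).filter Nat.Prime, χ p +
      ∑ n ∈ (Icc 1 y).filter (fun n => ¬ n.Prime), al χ n := by
    rw [← sum_filter_add_sum_filter_not (Icc 1 y) Nat.Prime]
    congr 1
    exact sum_congr rfl fun p hp => al_prime_pz χ (mem_filter.1 hp).2
  have h2 : ‖∑ n ∈ (Icc 1 y).filter (fun n => ¬ n.Prime), al χ n‖ ≤ Nat.sqrt y * Nat.log 2 y := by
    have h3 : ∑ n ∈ (Icc 1 y).filter (fun n => ¬ n.Prime), al χ n =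
        ∑ n ∈ (Icc 1 y).filter (fun n => ¬ n.Prime ∧ IsPrimePow n), al χ n := by
      symm
      refine sum_subset ?_ ?_
      · intro n hn
        obtain ⟨a, b, _⟩ := mem_filter.1 hn
        exact mem_filter.2 ⟨a, b⟩
      · intro n hn hn'
        obtain ⟨a, b⟩ := mem_filter.1 hn
        exact al_zero_pz χ fun hc => hn' (mem_filter.2 ⟨a, b, hc⟩)
    rw [h3]
    refine (norm_sum_le _ _).trans ?_
    refine (sum_le_card_nsmul _ _ 1 fun n _ => al_norm_pz χ n).trans ?_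
    rw [nsmul_eq_mul, mul_one]
    exact_mod_cast card_pow_pz y
  have h4 : ∑ p ∈ (Icc 1 y).filter Nat.Prime, χ p = ∑ n ∈ Icc 1 y, al χ n -
      ∑ n ∈ (Icc 1 y).filter (fun n => ¬ n.Prime), al χ n := by
    rw [h1, add_sub_cancel_right]
  rw [h4]
  exact (norm_sub_le _ _).trans (by linarith)

theorem prime_zero (c : ℝ) (B : ℕ) (hc : 0 < c) : ∃ N : ℕ, ∃ X0 : ℕ, ∀ X : ℕ, X0 ≤ X → ∀ (q : ℕ)
    [NeZero q] (χ : DirichletCharacter ℂ q), χ ≠ 1 → q ≤ X → ∀ y : ℕ, (X : ℝ) ^ c ≤ y → y ≤ X →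
    (y : ℝ) / Real.log X ^ B ≤ ‖∑ p ∈ (Icc 1 y).filter Nat.Prime, χ p‖ →
    ∃ ρ : ℂ, 1 - N * Real.log (Real.log X) / Real.log X ≤ ρ.re ∧ ρ.re < 1 ∧
      |ρ.im| ≤ Real.log X ^ N ∧ χ.LFunction ρ = 0 := by
  obtain ⟨N, X1, h⟩ := sum_small c (B + 1) hc
  -- `4 (log X) ^ (B + 1) < X ^ (c / 2)` for large `X`
  have hev : ∀ᶠ x : ℝ in Filter.atTop, 4 * Real.log x ^ (B + 1) < x ^ (c / 2) := by
    have h1 := (isLittleO_log_rpow_rpow_atTop ((B + 1 : ℕ) : ℝ) (half_pos hc)).bound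
      (show (0 : ℝ) < 1 / 8 by norm_num)
    filter_upwards [h1, Filter.eventually_ge_atTop (1 : ℝ)] with x hx hx1
    have h2 : 0 ≤ Real.log x := Real.log_nonneg hx1
    have h3 : 0 < x ^ (c / 2) := Real.rpow_pos_of_pos (by linarith) _
    rw [Real.rpow_natCast, Real.norm_of_nonneg (pow_nonneg h2 _), Real.norm_of_nonneg h3.le] at hx
    linarith
  obtain ⟨X2, hX2⟩ := Filter.eventually_atTop.1 hev
  refine ⟨N, max (max X1 8) ⌈X2⌉₊, fun X hX q _ χ hχ hq y hy hyX hbig => ?_⟩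
  have hX1 : X1 ≤ X := (le_max_left _ _).trans ((le_max_left _ _).trans hX)
  have hX8 : 8 ≤ X := (le_max_right _ _).trans ((le_max_left _ _).trans hX)
  have hX3 : X2 ≤ X := (Nat.le_ceil X2).trans (by exact_mod_cast (le_max_right _ _).trans hX)
  by_contra hcon
  push Not at hcon
  have hZF : ZF χ (N * Real.log (Real.log X) / Real.log X) (Real.log X ^ N) := by
    intro ρ hρ1 hρ2
    rcases lt_or_ge ρ.re 1 with h1 | h1
    · exact hcon ρ hρ1 h1 hρ2
    · exact DirichletCharacter.LFunction_ne_zero_of_one_le_re χ (Or.inl hχ) h1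
  have hs := h X hX1 q χ hχ hq hZF y hy hyX
  have hd := diff_le_pz χ y
  have hXr : (8 : ℝ) ≤ X := by exact_mod_cast hX8
  have hX0 : (0 : ℝ) < X := by linarith
  obtain ⟨L, hL⟩ : ∃ L, L = Real.log X := ⟨_, rfl⟩
  have hL2 : 2 ≤ L := by
    rw [hL, Real.le_log_iff_exp_le hX0]
    have h1 : Real.exp 2 = Real.exp 1 ^ 2 := by rw [← Real.exp_nat_mul]; norm_num
    have h2 := Real.exp_one_lt_d9
    have h3 := Real.exp_pos 1
    rw [h1]
    nlinarith
  have hL0 : 0 < L := by linarith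
  have hy0 : (0 : ℝ) < y := lt_of_lt_of_le (Real.rpow_pos_of_pos hX0 c) hy
  have hsq : X ^ (c / 2) ≤ √(y : ℝ) := by
    rw [Real.le_sqrt (Real.rpow_nonneg hX0.le _) hy0.le, ← Real.rpow_natCast, ← Real.rpow_mul hX0.le]
    have : c / 2 * ((2 : ℕ) : ℝ) = c := by push_cast; ring
    rw [this]
    exact hy
  have hk := hX2 X hX3
  rw [← hL] at hk hs hbig
  have hlog : ((Nat.log 2 y : ℕ) : ℝ) ≤ 2 * L := by
    have h1 : ((Nat.log 2 y : ℕ) : ℝ) * Real.log 2 ≤ Real.log y := by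
      rw [← Real.log_pow]
      refine Real.log_le_log (by positivity) ?_
      have : 2 ^ Nat.log 2 y ≤ y := Nat.pow_log_le_self 2 (by
        intro h0
        rw [h0] at hy0
        simp at hy0)
      exact_mod_cast this
    have h2 : Real.log y ≤ L := by
      rw [hL]
      exact Real.log_le_log hy0 (by exact_mod_cast hyX)
    have h3 := Real.log_two_gt_d9
    have h4 : (0 : ℝ) ≤ (Nat.log 2 y : ℕ) := Nat.cast_nonneg _
    nlinarith
  have hsq2 : ((Nat.sqrt y : ℕ) : ℝ) ≤ √(y : ℝ) := Real.nat_sqrt_le_real_sqrt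
  have hs0 : 0 < √(y : ℝ) := Real.sqrt_pos.2 hy0
  have hss : √(y : ℝ) * √(y : ℝ) = y := Real.mul_self_sqrt hy0.le
  have hprod : ((Nat.sqrt y : ℕ) : ℝ) * ((Nat.log 2 y : ℕ) : ℝ) ≤ √(y : ℝ) * (2 * L) :=
    mul_le_mul hsq2 hlog (Nat.cast_nonneg _) hs0.le
  have hLB : 0 < L ^ B := pow_pos hL0 B
  -- `y / L ^ B ≤ y / L ^ (B + 1) + √y (2 L)`
  have htot : (y : ℝ) / L ^ B ≤ y / L ^ (B + 1) + √(y : ℝ) * (2 * L) := by linarith
  have h5 : (y : ℝ) * L ≤ y + √(y : ℝ) * (2 * L) * L ^ (B + 1) := by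
    have h6 := mul_le_mul_of_nonneg_right htot (pow_pos hL0 (B + 1)).le
    rw [add_mul, div_mul_cancel₀ _ (pow_pos hL0 (B + 1)).ne'] at h6
    have h7 : (y : ℝ) / L ^ B * L ^ (B + 1) = y * L := by
      rw [pow_succ]
      field_simp
    rw [h7] at h6
    exact h6
  have h8 : 4 * L ^ (B + 1) < √(y : ℝ) := lt_of_lt_of_le hk hsq
  -- `√y (2 L) L ^ (B+1) < y L / 2`
  have h9 : √(y : ℝ) * (2 * L) * L ^ (B + 1) < y * L / 2 := by
    have h10 : √(y : ℝ) * (2 * L) * L ^ (B + 1) = (√(y : ℝ) * L / 2) * (4 * L ^ (B + 1)) := by ring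
    have h11 : (y : ℝ) * L / 2 = (√(y : ℝ) * L / 2) * √(y : ℝ) := by
      rw [← hss]
      have : √(√(y : ℝ) * √(y : ℝ)) = √(y : ℝ) := by rw [hss]
      rw [this]
      ring
    rw [h10, h11]
    exact mul_lt_mul_of_pos_left h8 (by positivity)
  nlinarith

end Pool.MP_dd84fd_nt.ZR
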