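import Pool.Agent.Lib.MP_dd84fd_nt.ZR.Sum
import Pool.Agent.Lib.MP_dd84fd_nt.QZ.QDefs

/-!
# ZR-Hz: a character with a heavy interval has a zero near `1`

`Λ(n) ψ(n) = al ψ n * log n`; Abel summation over `(⌊x⌋, ⌊x+H⌋]` with
`sum_small (1/12) (B + 3)`-bounds for `y ∈ [X^(1/12), X]`: the sum is at most `4 log X (x + H) / (log X)^(B+3)`, less than `lam H` as
`x ≤ H (log X)^B`, `H ≤ x`.  If there is no zero then `ZF` holds; `ρ.re < 1`:
`DirichletCharacter.LFunction_ne_zero_of_one_le_re`.  `IsPC ψ`, `2 ≤ ψ.1` give `ψ.2 ≠ 1`.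
-/

set_option autoImplicit false

namespace Pool.MP_dd84fd_nt.ZR

open Finset
open Pool.MP_dd84fd_nt.BX (PC pv IsPC)
open Pool.MP_dd84fd_nt.QZ (Hvy)

private lemma abel (S : ℕ → ℂ) (c : ℕ → ℝ) (M : ℝ) (a : ℕ) (hc0 : 0 ≤ c a)
    (hM : 0 ≤ M) (hmono : ∀ n, a ≤ n → c n ≤ c (n + 1)) (b : ℕ) (hab : a ≤ b)
    (hS : ∀ n, a ≤ n → n ≤ b → ‖S n‖ ≤ M) :
    ‖(∑ n ∈ Ioc a b, (S n - S (n - 1)) * (c n : ℂ)) - S b * (c b : ℂ)‖ ≤ M * c b := by
  induction b, hab using Nat.le_induction with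
  | base =>
    simp only [Ioc_self, sum_empty, zero_sub, norm_neg, norm_mul, Complex.norm_real,
      Real.norm_eq_abs, abs_of_nonneg hc0]
    exact mul_le_mul_of_nonneg_right (hS a le_rfl le_rfl) hc0
  | succ b hab ih =>
    have ih' := ih (fun n h1 h2 => hS n h1 (h2.trans (Nat.le_succ b)))
    have e1 : (∑ n ∈ Ioc a (b + 1), (S n - S (n - 1)) * (c n : ℂ)) - S (b + 1) * (c (b + 1) : ℂ)
        = ((∑ n ∈ Ioc a b, (S n - S (n - 1)) * (c n : ℂ)) - S b * (c b : ℂ))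
          - S b * ((c (b + 1) - c b : ℝ) : ℂ) := by
      rw [← Finset.insert_Ioc_right_eq_Ioc_add_one (by omega : a ≤ b),
        Finset.sum_insert (by simp)]
      push_cast
      ring
    rw [e1]
    refine (norm_sub_le _ _).trans ?_
    have h2 : ‖S b * ((c (b + 1) - c b : ℝ) : ℂ)‖ ≤ M * (c (b + 1) - c b) := by
      rw [norm_mul, Complex.norm_real, Real.norm_eq_abs,
        abs_of_nonneg (sub_nonneg.mpr (hmono b hab))]
      exact mul_le_mul_of_nonneg_right (hS b hab (Nat.le_succ b)) (sub_nonneg.mpr (hmono b hab))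
    calc _ ≤ M * c b + M * (c (b + 1) - c b) := add_le_add ih' h2
      _ = M * c (b + 1) := by ring

private lemma abel' (S : ℕ → ℂ) (c : ℕ → ℝ) (M : ℝ) (a : ℕ) (hc0 : 0 ≤ c a)
    (hM : 0 ≤ M) (hmono : ∀ n, a ≤ n → c n ≤ c (n + 1)) (b : ℕ) (hab : a ≤ b)
    (hS : ∀ n, a ≤ n → n ≤ b → ‖S n‖ ≤ M) :
    ‖∑ n ∈ Ioc a b, (S n - S (n - 1)) * (c n : ℂ)‖ ≤ 2 * M * c b := by
  have h := abel S c M a hc0 hM hmono b hab hS
  have hcb : 0 ≤ c b := by
    have : ∀ n, a ≤ n → 0 ≤ c n := by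
      intro n hn
      induction n, hn using Nat.le_induction with
      | base => exact hc0
      | succ n hn ih => exact ih.trans (hmono n hn)
    exact this b hab
  have h2 : ‖S b * (c b : ℂ)‖ ≤ M * c b := by
    rw [norm_mul, Complex.norm_real, Real.norm_eq_abs, abs_of_nonneg hcb]
    exact mul_le_mul_of_nonneg_right (hS b hab le_rfl) hcb
  calc ‖∑ n ∈ Ioc a b, (S n - S (n - 1)) * (c n : ℂ)‖
      = ‖((∑ n ∈ Ioc a b, (S n - S (n - 1)) * (c n : ℂ)) - S b * (c b : ℂ)) + S b * (c b : ℂ)‖ := by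
        rw [sub_add_cancel]
    _ ≤ M * c b + M * c b := (norm_add_le _ _).trans (add_le_add h h2)
    _ = 2 * M * c b := by ring

private lemma al_log {q : ℕ} (χ : DirichletCharacter ℂ q) {n : ℕ} (hn : 2 ≤ n) :
    ((ArithmeticFunction.vonMangoldt n : ℝ) : ℂ) * χ n = al χ n * (Real.log n : ℂ) := by
  have h : Real.log n ≠ 0 := (Real.log_pos (by exact_mod_cast hn)).ne'
  have h' : ((Real.log n : ℝ) : ℂ) ≠ 0 := by exact_mod_cast h
  unfold al
  rw [Complex.ofReal_div]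
  field_simp

private lemma ne_one {q : ℕ} (χ : DirichletCharacter ℂ q) (h : χ.IsPrimitive) (hq : 2 ≤ q) :
    χ ≠ 1 := by
  rintro rfl
  have : NeZero q := ⟨by omega⟩
  have h1 : (1 : DirichletCharacter ℂ q).conductor = q := h
  rw [DirichletCharacter.conductor_one] at h1
  omega

theorem hvy_zero (lam : ℝ) (B : ℕ) (hlam : 0 < lam) : ∃ N : ℕ, ∃ X0 : ℕ, ∀ X : ℕ, X0 ≤ X →
    ∀ ψ : PC, IsPC ψ → 2 ≤ ψ.1 → ψ.1 ≤ X → Hvy lam (1 / 11) B X ψ →
    ∃ ρ : ℂ, 1 - N * Real.log (Real.log X) / Real.log X ≤ ρ.re ∧ ρ.re < 1 ∧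
      |ρ.im| ≤ Real.log X ^ N ∧ ∃ _ : NeZero ψ.1, ψ.2.LFunction ρ = 0 := by
  obtain ⟨N, X1, hX1⟩ := sum_small (1 / 12) (B + 3) (by norm_num)
  -- `X^(1/12) + 2 ≤ X^(1/11)` and `4 < lam * log X ^ 2` eventually
  have ev1 : ∀ᶠ X : ℕ in Filter.atTop, (X : ℝ) ^ (1 / 12 : ℝ) + 2 ≤ (X : ℝ) ^ (1 / 11 : ℝ) := by
    have t1 : Filter.Tendsto (fun X : ℕ => (X : ℝ) ^ (1 / 132 : ℝ)) Filter.atTop Filter.atTop :=
      (tendsto_rpow_atTop (by norm_num)).comp tendsto_natCast_atTop_atTop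
    filter_upwards [t1.eventually_ge_atTop 3, Filter.eventually_ge_atTop 1] with X h3 h1
    have hX : (1 : ℝ) ≤ X := by exact_mod_cast h1
    have e : (X : ℝ) ^ (1 / 11 : ℝ) = (X : ℝ) ^ (1 / 12 : ℝ) * (X : ℝ) ^ (1 / 132 : ℝ) := by
      rw [← Real.rpow_add (by linarith)]
      norm_num
    have h12 : (1 : ℝ) ≤ (X : ℝ) ^ (1 / 12 : ℝ) := Real.one_le_rpow hX (by norm_num)
    rw [e]
    nlinarith
  have tl : Filter.Tendsto (fun X : ℕ => Real.log X) Filter.atTop Filter.atTop :=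
    Real.tendsto_log_atTop.comp tendsto_natCast_atTop_atTop
  have ev2 : ∀ᶠ X : ℕ in Filter.atTop, 4 < lam * Real.log X ^ 2 := by
    have t2 : Filter.Tendsto (fun X : ℕ => lam * Real.log X ^ 2) Filter.atTop Filter.atTop :=
      ((Filter.tendsto_pow_atTop (two_ne_zero)).comp tl).const_mul_atTop hlam
    exact t2.eventually_gt_atTop 4
  have ev3 : ∀ᶠ X : ℕ in Filter.atTop, 1 ≤ Real.log X := tl.eventually_ge_atTop 1
  obtain ⟨X2, hX2⟩ := Filter.eventually_atTop.mp (ev1.and (ev2.and ev3))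
  refine ⟨N, max X1 X2, ?_⟩
  intro X hX ψ hψ h2 hqX hv
  obtain ⟨q, χ⟩ := ψ
  simp only at h2 hqX
  have : NeZero q := ⟨by omega⟩
  have hne : χ ≠ 1 := ne_one χ hψ.2 h2
  obtain ⟨g1, g2, g3⟩ := hX2 X (le_of_max_le_right hX)
  by_cases hZ : ZF χ (N * Real.log (Real.log X) / Real.log X) (Real.log X ^ N)
  · exfalso
    have hs := hX1 X (le_of_max_le_left hX) q χ hne hqX hZ
    obtain ⟨x, H, a1, a2, a3, a4, a5, a6⟩ := hv
    set L := Real.log X with hL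
    have hLpos : 0 < L := by linarith
    have hX12 : 0 ≤ (X : ℝ) ^ (1 / 12 : ℝ) := by positivity
    have hx2 : (X : ℝ) ^ (1 / 12 : ℝ) + 2 ≤ x := g1.trans a2
    have hx0 : 0 ≤ x := by linarith
    have ha : (X : ℝ) ^ (1 / 12 : ℝ) ≤ (⌊x⌋₊ : ℝ) := by
      have := Nat.lt_floor_add_one x
      linarith
    have ha1 : 1 ≤ ⌊x⌋₊ := by
      apply Nat.le_floor
      push_cast
      linarith
    have hab : ⌊x⌋₊ ≤ ⌊x + H⌋₊ := Nat.floor_le_floor (by linarith)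
    have hbX : ⌊x + H⌋₊ ≤ X := by
      have := Nat.floor_le_floor a3
      rwa [Nat.floor_natCast] at this
    have hb0 : (⌊x + H⌋₊ : ℝ) ≤ x + H := Nat.floor_le (by linarith)
    set M : ℝ := (x + H) / L ^ (B + 3) with hMdef
    have hM0 : 0 ≤ M := by positivity
    set S : ℕ → ℂ := fun y => ∑ n ∈ Icc 1 y, al χ n with hSdef
    have hSb : ∀ n, ⌊x⌋₊ ≤ n → n ≤ ⌊x + H⌋₊ → ‖S n‖ ≤ M := by
      intro n hn1 hn2
      have hn1' : (⌊x⌋₊ : ℝ) ≤ n := by exact_mod_cast hn1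
      have hn2' : (n : ℝ) ≤ (⌊x + H⌋₊ : ℝ) := by exact_mod_cast hn2
      refine (hs n (ha.trans hn1') (hn2.trans hbX)).trans ?_
      rw [hMdef]
      gcongr
      linarith
    have hab' := abel' S (fun n => Real.log n) M ⌊x⌋₊ (Real.log_natCast_nonneg _) hM0
      (fun n hn => Real.log_le_log (by exact_mod_cast (by omega : 0 < n)) (by push_cast; linarith))
      ⌊x + H⌋₊ hab hSb
    have esum : ∑ n ∈ Ioc ⌊x⌋₊ ⌊x + H⌋₊, ((ArithmeticFunction.vonMangoldt n : ℝ) : ℂ) * pv ⟨q, χ⟩ n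
        = ∑ n ∈ Ioc ⌊x⌋₊ ⌊x + H⌋₊, (S n - S (n - 1)) * ((Real.log n : ℝ) : ℂ) := by
      refine sum_congr rfl ?_
      intro n hn
      rw [mem_Ioc] at hn
      have hn2 : 2 ≤ n := by omega
      have e2 : S n - S (n - 1) = al χ n := by
        obtain ⟨m, rfl⟩ : ∃ m, n = m + 1 := ⟨n - 1, by omega⟩
        simp only [hSdef, Nat.add_sub_cancel]
        rw [Finset.sum_Icc_succ_top (by omega)]
        ring
      rw [e2]
      exact al_log χ hn2
    rw [esum] at a6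
    have hb1 : Real.log (⌊x + H⌋₊ : ℝ) ≤ L := by
      rw [hL]
      apply Real.log_le_log
      · exact_mod_cast (by omega : 0 < ⌊x + H⌋₊)
      · exact_mod_cast hbX
    have h5 : lam * H ≤ 2 * M * L := a6.trans (hab'.trans (mul_le_mul_of_nonneg_left hb1 (by positivity)))
    have h6 : M * L ^ (B + 3) = x + H := by
      rw [hMdef]
      field_simp
    have hLB : 0 < L ^ B := by positivity
    have h7 : x + H ≤ 2 * (H * L ^ B) := by linarith
    have h8 : M * L ^ 3 ≤ 2 * H := by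
      have : M * L ^ 3 * L ^ B ≤ 2 * H * L ^ B := by
        calc M * L ^ 3 * L ^ B = M * L ^ (B + 3) := by ring
          _ = x + H := h6
          _ ≤ 2 * (H * L ^ B) := h7
          _ = 2 * H * L ^ B := by ring
      exact le_of_mul_le_mul_right this hLB
    have h9 : lam * H * L ^ 2 ≤ 4 * H := by
      calc lam * H * L ^ 2 ≤ 2 * M * L * L ^ 2 := mul_le_mul_of_nonneg_right h5 (by positivity)
        _ = 2 * (M * L ^ 3) := by ring
        _ ≤ 4 * H := by linarith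
    have h10 : 4 * H < lam * H * L ^ 2 := by
      have := mul_lt_mul_of_pos_right g2 a1
      calc 4 * H < lam * L ^ 2 * H := this
        _ = lam * H * L ^ 2 := by ring
    linarith
  · unfold ZF at hZ
    push Not at hZ
    obtain ⟨ρ, r1, r2, r3⟩ := hZ
    refine ⟨ρ, r1, ?_, r2, inferInstance, r3⟩
    by_contra hcon
    push Not at hcon
    exact DirichletCharacter.LFunction_ne_zero_of_one_le_re χ (Or.inl hne) hcon r3

end Pool.MP_dd84fd_nt.ZR
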