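import Pool.Agent.Lib.MP_dd84fd_nt.ZR.LFb
import Pool.Agent.Lib.MP_dd84fd_nt.SW.MuRec

/-!
# ZR-Bc: the logarithmic derivative in a zero-free region (Borel-Caratheodory)

Centre `s₀ = 1 + δ + i Im s`, closed disc of radius `2 δ`: real parts `≥ 1 - δ`, imaginary parts at most
`U - 1 + 2 δ ≤ U`, so `L` has no zero there.  `g = L / L(s₀)` has a logarithm `h`, `h(s₀) = 0`, on the
disc (Mathlib: `Mathlib/Analysis/Complex/HasPrimitives.lean`, `BranchLogRoot.lean`); `Re h ≤ A :=
log (2 C q (U+3) / δ)` by `lfb` and `SW.L_triv_lower` (`‖L(s₀)‖ ≥ δ/2`; `SW.ej χ 0 = χ`,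
`DirichletCharacter.LFunction_eq_LSeries`).  Borel-Caratheodory
(`Mathlib/Analysis/Complex/BorelCaratheodory.lean`) on the radius `7 δ/4` and Cauchy's estimate for
`h' = L'/L` on a circle of radius `δ/4` around `s` (`|s - s₀| ≤ 3 δ/2`... note `Re s ≤ 1 + 2 δ`).
As `q (U+3)/δ ≥ 24`, constants inside the logarithm can be absorbed in `C`.
-/

set_option autoImplicit false

namespace Pool.MP_dd84fd_nt.ZR

open Finset

private theorem logDeriv_bound {F : ℂ → ℂ} (hF : Differentiable ℂ F) {δ A : ℝ} (hδ : 0 < δ)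
    (hA : 0 < A) (s₀ s : ℂ) (hne : ∀ z ∈ Metric.ball s₀ (2 * δ), F z ≠ 0)
    (hb : ∀ z ∈ Metric.ball s₀ (2 * δ), Real.log (‖F z‖ / ‖F s₀‖) ≤ A)
    (hs : ‖s - s₀‖ ≤ 3 * δ / 2) : ‖deriv F s / F s‖ ≤ 56 * A / δ := by
  have hd : DifferentiableOn ℂ (fun z => deriv F z / F z) (Metric.ball s₀ (2 * δ)) := by
    intro z hz
    have h1 : DifferentiableAt ℂ (deriv F) z := (hF.contDiff (n := 2)).differentiable_deriv_two z
    exact (h1.div (hF z) (hne z hz)).differentiableWithinAt
  obtain ⟨h, hh0, hh⟩ := hd.isExactOn_ball.with_val_at s₀ 0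
  have hs0 : s₀ ∈ Metric.ball s₀ (2 * δ) := Metric.mem_ball_self (by linarith)
  -- `F z = F s₀ * exp (h z)`
  have hG : ∀ z ∈ Metric.ball s₀ (2 * δ), F z = F s₀ * Complex.exp (h z) := by
    have hGd : ∀ z ∈ Metric.ball s₀ (2 * δ),
        HasDerivAt (fun z => F z * Complex.exp (-(h z))) 0 z := by
      intro z hz
      have h1 := (hF z).hasDerivAt.mul ((hh z hz).neg.cexp)
      refine h1.congr_deriv ?_
      have h2 := hne z hz
      field_simp
      ring
    intro z hz
    have h3 := Metric.isOpen_ball.is_const_of_deriv_eq_zero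
      (convex_ball s₀ (2 * δ)).isPreconnected
      (fun w hw => (hGd w hw).differentiableAt.differentiableWithinAt)
      (fun w hw => (hGd w hw).deriv) hz hs0
    simp only [hh0, neg_zero, Complex.exp_zero, mul_one] at h3
    rw [← h3, mul_assoc, ← Complex.exp_add]
    simp
  have hre : ∀ z ∈ Metric.ball s₀ (2 * δ), (h z).re ≤ A := by
    intro z hz
    have h1 := hb z hz
    rw [hG z hz, norm_mul, mul_comm, mul_div_assoc, div_self (norm_ne_zero_iff.2 (hne s₀ hs0)),
      mul_one, Complex.norm_exp, Real.log_exp] at h1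
    exact h1
  have hbc : ∀ z : ℂ, ‖z - s₀‖ ≤ 7 * δ / 4 → ‖h z‖ ≤ 14 * A := by
    intro z hz
    have h1 := Complex.borelCaratheodory_zero (f := fun w => h (s₀ + w)) (M := A) (R := 2 * δ)
      (z := z - s₀) hA ?_ ?_ (by linarith) ?_ (by simp [hh0])
    · have e1 : s₀ + (z - s₀) = z := by ring
      simp only [e1] at h1
      refine h1.trans ?_
      rw [div_le_iff₀ (by linarith)]
      nlinarith [norm_nonneg (z - s₀)]
    · intro w hw
      have hw' : s₀ + w ∈ Metric.ball s₀ (2 * δ) := by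
        rw [mem_ball_iff_norm]
        rw [mem_ball_zero_iff] at hw
        simpa using hw
      have h2 : DifferentiableAt ℂ (fun w => h (s₀ + w)) w :=
        ((hh _ hw').differentiableAt).comp w (by fun_prop)
      exact h2.differentiableWithinAt
    · intro w hw
      apply hre
      rw [mem_ball_iff_norm]
      rw [mem_ball_zero_iff] at hw
      simpa using hw
    · rw [mem_ball_zero_iff]
      linarith
  have hmem : ∀ z ∈ Metric.closedBall s (δ / 4), ‖z - s₀‖ ≤ 7 * δ / 4 := by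
    intro z hz
    rw [mem_closedBall_iff_norm] at hz
    calc ‖z - s₀‖ = ‖(z - s) + (s - s₀)‖ := by ring_nf
      _ ≤ ‖z - s‖ + ‖s - s₀‖ := norm_add_le _ _
      _ ≤ 7 * δ / 4 := by linarith
  have hball : ∀ z : ℂ, ‖z - s₀‖ ≤ 7 * δ / 4 → z ∈ Metric.ball s₀ (2 * δ) := by
    intro z hz
    rw [mem_ball_iff_norm]
    linarith
  have hdc : DiffContOnCl ℂ h (Metric.ball s (δ / 4)) := by
    apply DifferentiableOn.diffContOnCl
    rw [closure_ball s (by positivity)]
    intro z hz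
    exact (hh z (hball z (hmem z hz))).differentiableAt.differentiableWithinAt
  have hfin := Complex.norm_deriv_le_of_forall_mem_sphere_norm_le (by positivity : 0 < δ / 4) hdc
    (fun z hz => hbc z (hmem z (Metric.sphere_subset_closedBall hz)))
  have hsb : s ∈ Metric.ball s₀ (2 * δ) := hball s (by linarith)
  rw [(hh s hsb).deriv] at hfin
  refine hfin.trans (le_of_eq ?_)
  field_simp
  ring

theorem bc : ∃ C : ℝ, 0 < C ∧ ∀ (q : ℕ) [NeZero q] (χ : DirichletCharacter ℂ q) (δ U : ℝ) (s : ℂ),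
    χ ≠ 1 → 0 < δ → δ ≤ 1 / 8 → 1 ≤ U → ZF χ δ U → 1 - δ / 2 ≤ s.re → s.re ≤ 1 + 2 * δ →
    |s.im| ≤ U - 1 →
    ‖deriv χ.LFunction s / χ.LFunction s‖ ≤ C * Real.log (q * (U + 3) / δ) / δ := by
  obtain ⟨C₀, hC₀, hlf⟩ := lfb
  have hlogC : 0 ≤ Real.log (2 * C₀) := Real.log_nonneg (by linarith)
  refine ⟨56 * (1 + Real.log (2 * C₀)), by positivity, ?_⟩
  intro q _ χ δ U s hχ hδ hδ' hU hZ hs1 hs2 him
  set s₀ : ℂ := ⟨1 + δ, s.im⟩ with hs₀
  have hq : (1 : ℝ) ≤ q := by exact_mod_cast Nat.one_le_iff_ne_zero.2 (NeZero.ne q)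
  set Y : ℝ := q * (U + 3) / δ with hY
  have hY32 : 32 ≤ Y := by
    rw [hY, le_div_iff₀ hδ]
    nlinarith
  have hlogY : 1 ≤ Real.log Y := by
    rw [Real.le_log_iff_exp_le (by linarith)]
    exact (Real.exp_one_lt_three.le).trans (by linarith)
  have hballre : ∀ z ∈ Metric.ball s₀ (2 * δ), 1 - δ ≤ z.re ∧ z.re ≤ 1 + 3 * δ ∧ |z.im| ≤ U := by
    intro z hz
    rw [mem_ball_iff_norm] at hz
    have h1 : |(z - s₀).re| ≤ ‖z - s₀‖ := Complex.abs_re_le_norm _
    have h2 : |(z - s₀).im| ≤ ‖z - s₀‖ := Complex.abs_im_le_norm _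
    rw [Complex.sub_re] at h1
    rw [Complex.sub_im] at h2
    have e1 : s₀.re = 1 + δ := rfl
    have e2 : s₀.im = s.im := rfl
    rw [e1] at h1
    rw [e2] at h2
    have h3 := abs_le.1 (h1.trans hz.le)
    refine ⟨by linarith [h3.1], by linarith [h3.2], ?_⟩
    have h4 : |z.im| ≤ |z.im - s.im| + |s.im| := by
      have := abs_add_le (z.im - s.im) s.im
      simpa using this
    linarith
  have hne : ∀ z ∈ Metric.ball s₀ (2 * δ), χ.LFunction z ≠ 0 := by
    intro z hz
    obtain ⟨h1, -, h3⟩ := hballre z hz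
    exact hZ z h1 h3
  have hlow : δ / 2 ≤ ‖χ.LFunction s₀‖ := by
    have e1 : s₀.re = 1 + δ := rfl
    have h1 : 1 < s₀.re := by rw [e1]; linarith
    have h2 := SW.L_triv_lower q χ s₀ h1 (by rw [e1]; linarith)
    have e2 : SW.ej χ 0 = fun n : ℕ => χ n := by
      funext n
      simp [SW.ej]
    rw [e2, e1] at h2
    rw [DirichletCharacter.LFunction_eq_LSeries χ h1]
    refine le_trans (le_of_eq ?_) h2
    ring
  have hb : ∀ z ∈ Metric.ball s₀ (2 * δ),
      Real.log (‖χ.LFunction z‖ / ‖χ.LFunction s₀‖) ≤ (1 + Real.log (2 * C₀)) * Real.log Y := by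
    intro z hz
    obtain ⟨h1, h2, h3⟩ := hballre z hz
    have h4 := hlf q χ z hχ (by linarith)
    have h5 : ‖z‖ ≤ U + 3 := by
      refine (Complex.norm_le_abs_re_add_abs_im z).trans ?_
      rw [abs_of_nonneg (by linarith : 0 ≤ z.re)]
      linarith
    have hpos : 0 < ‖χ.LFunction z‖ := norm_pos_iff.2 (hne z hz)
    have h6 : ‖χ.LFunction z‖ / ‖χ.LFunction s₀‖ ≤ 2 * C₀ * Y := by
      calc ‖χ.LFunction z‖ / ‖χ.LFunction s₀‖ ≤ (C₀ * q * (U + 3)) / (δ / 2) := by
            apply div_le_div₀ (by positivity) _ (by positivity) hlow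
            refine h4.trans ?_
            have : 0 ≤ C₀ * q := by positivity
            exact mul_le_mul_of_nonneg_left h5 this
        _ = 2 * C₀ * Y := by
            rw [hY]
            field_simp
    have h7 : Real.log (‖χ.LFunction z‖ / ‖χ.LFunction s₀‖) ≤ Real.log (2 * C₀ * Y) :=
      Real.log_le_log (div_pos hpos (lt_of_lt_of_le (by positivity) hlow)) h6
    rw [Real.log_mul (by positivity) (by linarith)] at h7
    nlinarith
  have hss : ‖s - s₀‖ ≤ 3 * δ / 2 := by
    have e : s - s₀ = ((s.re - (1 + δ) : ℝ) : ℂ) := by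
      apply Complex.ext
      · simp [hs₀]
      · simp [hs₀]
    rw [e, Complex.norm_real, Real.norm_eq_abs, abs_le]
    constructor <;> linarith
  have hfin := logDeriv_bound (DirichletCharacter.differentiable_LFunction hχ) hδ
    (by positivity : 0 < (1 + Real.log (2 * C₀)) * Real.log Y) s₀ s hne hb hss
  refine hfin.trans (le_of_eq ?_)
  ring

end Pool.MP_dd84fd_nt.ZR
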