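import Pool.Agent.Lib.MP_dd84fd_nt.SW.Tauber
import Pool.Agent.Lib.MP_dd84fd_nt.SW.NearOne

/-!
# Board ZR (MP_dd84fd): a heavy primitive character has a zero, definitions (helper98)

`al χ n = χ(n) Λ(n) / log n`: the coefficients of `log L(s, χ)`.
`ZF χ δ U`: `L(s, χ)` has no zero with real part at least `1 - δ` and imaginary part at most `U`.
-/

set_option autoImplicit false

namespace Pool.MP_dd84fd_nt.ZR

open Finset

/-- `χ(n) Λ(n) / log n` -/
noncomputable def al {q : ℕ} (χ : DirichletCharacter ℂ q) (n : ℕ) : ℂ :=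
  χ n * ((ArithmeticFunction.vonMangoldt n / Real.log n : ℝ) : ℂ)

/-- no zeros `ρ` with `Re ρ ≥ 1 - δ`, `|Im ρ| ≤ U` -/
def ZF {q : ℕ} [NeZero q] (χ : DirichletCharacter ℂ q) (δ U : ℝ) : Prop :=
  ∀ ρ : ℂ, 1 - δ ≤ ρ.re → |ρ.im| ≤ U → χ.LFunction ρ ≠ 0

theorem al_norm {q : ℕ} (χ : DirichletCharacter ℂ q) (n : ℕ) : ‖al χ n‖ ≤ 1 := by
  unfold al
  rw [norm_mul, Complex.norm_real, Real.norm_eq_abs]
  have h1 := χ.norm_le_one (n : ZMod q)
  have h2 : |ArithmeticFunction.vonMangoldt n / Real.log n| ≤ 1 := by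
    rw [abs_div, abs_of_nonneg ArithmeticFunction.vonMangoldt_nonneg,
      abs_of_nonneg (Real.log_natCast_nonneg n)]
    exact div_le_one_of_le₀ ArithmeticFunction.vonMangoldt_le_log (Real.log_natCast_nonneg n)
  exact mul_le_one₀ h1 (abs_nonneg _) h2

end Pool.MP_dd84fd_nt.ZR
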