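import Pool.Agent.Lib.MP_dd84fd_nt.ZR.Bc

/-!
# ZR-Der: derivatives of `L'/L` to the right of `1`

Cauchy's estimate on the circle of radius `δ/2` around `s` (Mathlib:
`Complex.norm_iteratedDeriv_le_of_forall_mem_sphere_norm_le`), `bc` on the circle: real parts between
`1 - δ/2` and `1 + 2 δ`, imaginary parts at most `U - 1`.
-/

set_option autoImplicit false

namespace Pool.MP_dd84fd_nt.ZR

open Finset

theorem der : ∃ C : ℝ, 0 < C ∧ ∀ (q : ℕ) [NeZero q] (χ : DirichletCharacter ℂ q) (δ U : ℝ) (k : ℕ)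
    (s : ℂ), χ ≠ 1 → 0 < δ → δ ≤ 1 / 8 → 2 ≤ U → ZF χ δ U → 1 < s.re → s.re ≤ 1 + δ →
    |s.im| ≤ U - 2 →
    ‖iteratedDeriv k (fun z => deriv χ.LFunction z / χ.LFunction z) s‖ ≤
      C * Real.log (q * (U + 3) / δ) / δ * k.factorial * (2 / δ) ^ k := by
  obtain ⟨C, hC, hbc⟩ := bc
  refine ⟨C, hC, ?_⟩
  intro q _ χ δ U k s hχ hδ hδ8 hU hZF hs1 hs2 him
  have hR : 0 < δ / 2 := by positivity
  have hmem : ∀ z : ℂ, ‖z - s‖ ≤ δ / 2 → 1 - δ / 2 ≤ z.re ∧ z.re ≤ 1 + 2 * δ ∧ |z.im| ≤ U - 1 := by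
    intro z hz
    have h1 : |z.re - s.re| ≤ δ / 2 := by
      have := Complex.abs_re_le_norm (z - s)
      rw [Complex.sub_re] at this
      exact this.trans hz
    have h2 : |z.im - s.im| ≤ δ / 2 := by
      have := Complex.abs_im_le_norm (z - s)
      rw [Complex.sub_im] at this
      exact this.trans hz
    rw [abs_le] at h1 h2 him
    refine ⟨by linarith [h1.1], by linarith [h1.2], ?_⟩
    rw [abs_le]
    constructor
    · linarith [h2.1, him.1]
    · linarith [h2.2, him.2]
  have hne : ∀ z : ℂ, ‖z - s‖ ≤ δ / 2 → χ.LFunction z ≠ 0 := by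
    intro z hz
    obtain ⟨h1, -, h3⟩ := hmem z hz
    exact hZF z (by linarith) (by linarith)
  have hdiff : Differentiable ℂ χ.LFunction := DirichletCharacter.differentiable_LFunction hχ
  have hdd : Differentiable ℂ (deriv χ.LFunction) := by
    have := hdiff.contDiff (n := 2)
    exact (this.differentiable_deriv_two)
  have hd : DiffContOnCl ℂ (fun z => deriv χ.LFunction z / χ.LFunction z) (Metric.ball s (δ / 2)) := by
    refine DifferentiableOn.diffContOnCl ?_
    intro z hz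
    have hz' : z ∈ Metric.closedBall s (δ / 2) := Metric.closure_ball_subset_closedBall hz
    rw [Metric.mem_closedBall, dist_eq_norm] at hz'
    exact ((hdd z).div (hdiff z) (hne z hz')).differentiableWithinAt
  have hsph : ∀ z ∈ Metric.sphere s (δ / 2), ‖deriv χ.LFunction z / χ.LFunction z‖ ≤
      C * Real.log (q * (U + 3) / δ) / δ := by
    intro z hz
    rw [mem_sphere_iff_norm] at hz
    obtain ⟨h1, h2, h3⟩ := hmem z hz.le
    exact hbc q χ δ U z hχ hδ hδ8 (by linarith) hZF h1 h2 h3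
  have := Complex.norm_iteratedDeriv_le_of_forall_mem_sphere_norm_le k hR hd hsph
  refine this.trans (le_of_eq ?_)
  rw [div_pow, div_pow]
  field_simp

end Pool.MP_dd84fd_nt.ZR
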