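import Pool.Agent.Lib.MP_dd84fd_nt.ZR.Defs
import Pool.Agent.Lib.MP_dd84fd_nt.SW.GaussAvg

/-!
# ZR-Gau: Gaussian averages, a bound `M1` for `|t| ≤ U` and `M2` beyond

As `SW/GaussAvg.lean` (theorem `gauss_avg`): copy the proof; in the last step
`‖∑' n, F n t‖ ≤ exp (-(t²/(2T²))) M1` for `|t| ≤ U` and
`≤ exp (-(t²/(2T²))) M2 ≤ exp (-(U²/(4T²))) exp (-(t²/(4T²))) M2` for `|t| > U`; so
`‖∑' n, F n t‖ ≤ (M1 + M2 exp (-(U²/(4T²)))) exp (-(t²/(4T²)))` always.
-/

set_option autoImplicit false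

namespace Pool.MP_dd84fd_nt.ZR

open Finset
open Pool.MP_dd84fd_nt.SW (Dk)

open MeasureTheory Pool.MP_dd84fd_nt.SW in
theorem gau : ∃ C : ℝ, 0 < C ∧ ∀ (a : ℕ → ℂ) (k : ℕ) (σ T x M1 M2 U : ℝ),
    (∀ n, ‖a n‖ ≤ 1) → 1 < σ → 1 ≤ T → 0 < x → 0 ≤ M1 → 0 ≤ M2 → 0 ≤ U →
    (∀ t : ℝ, |t| ≤ U →
      ‖LSeries (fun n => a n * (Real.log n : ℂ) ^ k) (σ + t * Complex.I)‖ ≤ M1) →
    (∀ t : ℝ, ‖LSeries (fun n => a n * (Real.log n : ℂ) ^ k) (σ + t * Complex.I)‖ ≤ M2) →
    ‖Dk a k σ T x‖ ≤ C * (M1 + M2 * Real.exp (-(U ^ 2 / (4 * T ^ 2)))) := by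
  refine ⟨Real.sqrt 2, by positivity, ?_⟩
  intro a k σ T x M1 M2 U ha hσ hT hx hM1 hM2 hU hL1 hL2
  have hT0 : 0 < T := by linarith
  set f : ℕ → ℂ := fun n => a n * (Real.log n : ℂ) ^ k with hf
  have hfb : ∀ n, ‖f n‖ ≤ |Real.log n| ^ k := by
    intro n
    rw [hf]
    simp only
    rw [norm_mul, norm_pow, Complex.norm_real, Real.norm_eq_abs]
    calc ‖a n‖ * |Real.log n| ^ k ≤ 1 * |Real.log n| ^ k := by gcongr; exact ha n
      _ = _ := one_mul _
  let F : ℕ → ℝ → ℂ := fun n t => (Real.exp (-(t ^ 2 / (2 * T ^ 2))) : ℂ) *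
    (x : ℂ) ^ ((t : ℂ) * Complex.I) * LSeries.term f (σ + t * Complex.I) n
  have hxn : ∀ t : ℝ, ‖(x : ℂ) ^ ((t : ℂ) * Complex.I)‖ = 1 := by
    intro t
    rw [Complex.norm_cpow_eq_rpow_re_of_pos hx]
    simp
  have hre : ∀ t : ℝ, ((σ : ℂ) + t * Complex.I).re = σ := by
    intro t
    simp
  have hgauss : Integrable (fun t : ℝ => Real.exp (-(t ^ 2 / (2 * T ^ 2)))) := by
    have := integrable_exp_neg_mul_sq (b := 1 / (2 * T ^ 2)) (by positivity)
    refine this.congr (Filter.Eventually.of_forall fun t => ?_)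
    simp only
    congr 1
    ring
  have hnormF : ∀ n (t : ℝ), ‖F n t‖ = Real.exp (-(t ^ 2 / (2 * T ^ 2))) *
      ‖LSeries.term f (σ : ℂ) n‖ := by
    intro n t
    simp only [F]
    rw [norm_mul, norm_mul, hxn, mul_one, Complex.norm_real, Real.norm_of_nonneg (Real.exp_pos _).le]
    congr 1
    rw [LSeries.norm_term_eq, LSeries.norm_term_eq, hre]
    simp
  -- closed form of the terms
  have hterm : ∀ n (t : ℝ), F n t = LSeries.term f (σ : ℂ) n *
      (Complex.exp (Complex.I * ((Real.log (x / n) : ℝ) : ℂ) * t) *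
        (Real.exp (-(t ^ 2 / (2 * T ^ 2))) : ℂ)) := by
    intro n t
    simp only [F]
    by_cases hn : n = 0
    · subst hn
      simp
    · have hn0 : (n : ℂ) ≠ 0 := by exact_mod_cast hn
      have hnr : (0 : ℝ) < n := by
        have : 0 < n := Nat.pos_of_ne_zero hn
        exact_mod_cast this
      rw [LSeries.term_of_ne_zero hn, LSeries.term_of_ne_zero hn, Complex.cpow_add _ _ hn0]
      have e1 : (x : ℂ) ^ ((t : ℂ) * Complex.I) / (n : ℂ) ^ ((t : ℂ) * Complex.I) =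
          Complex.exp (Complex.I * ((Real.log (x / n) : ℝ) : ℂ) * t) := by
        have hxc : (x : ℂ) ≠ 0 := by exact_mod_cast hx.ne'
        rw [Complex.cpow_def_of_ne_zero hxc, Complex.cpow_def_of_ne_zero hn0, ← Complex.exp_sub]
        congr 1
        rw [Real.log_div hx.ne' hnr.ne']
        push_cast
        rw [Complex.ofReal_log hx.le]
        ring
      rw [← e1]
      have hnc : (n : ℂ) ^ ((t : ℂ) * Complex.I) ≠ 0 := by
        rw [Complex.cpow_def_of_ne_zero hn0]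
        exact Complex.exp_ne_zero _
      have hnc2 : (n : ℂ) ^ (σ : ℂ) ≠ 0 := by
        rw [Complex.cpow_def_of_ne_zero hn0]
        exact Complex.exp_ne_zero _
      field_simp
  have hFint : ∀ n, Integrable (F n) := by
    intro n
    have h1 : Integrable (fun t : ℝ => Real.exp (-(t ^ 2 / (2 * T ^ 2))) *
      ‖LSeries.term f (σ : ℂ) n‖) := hgauss.mul_const _
    refine Integrable.mono' h1 ?_ (Filter.Eventually.of_forall fun t => (hnormF n t).le)
    have h2 : F n = fun t : ℝ => LSeries.term f (σ : ℂ) n *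
      (Complex.exp (Complex.I * ((Real.log (x / n) : ℝ) : ℂ) * t) *
        (Real.exp (-(t ^ 2 / (2 * T ^ 2))) : ℂ)) := funext fun t => hterm n t
    rw [h2]
    apply Continuous.aestronglyMeasurable
    fun_prop
  have hsum0 : Summable (fun n => ‖LSeries.term f (σ : ℂ) n‖) := by
    have : LSeriesSummable f (σ : ℂ) := GaussAvg_summable (j := k) (by simpa using hσ) hfb
    exact this.norm
  have hsum : Summable (fun n => ∫ t, ‖F n t‖) := by
    have : ∀ n, ∫ t, ‖F n t‖ = (∫ t : ℝ, Real.exp (-(t ^ 2 / (2 * T ^ 2)))) *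
        ‖LSeries.term f (σ : ℂ) n‖ := by
      intro n
      simp_rw [hnormF]
      rw [integral_mul_const]
    simp_rw [this]
    exact hsum0.mul_left _
  have hHS := hasSum_integral_of_summable_integral_norm hFint hsum
  -- evaluation of the integrals
  set c : ℂ := ((Real.sqrt (2 * Real.pi * T ^ 2) : ℝ) : ℂ) with hc
  have hval : ∀ n, ∫ t, F n t = c * (a n * (Real.log n : ℂ) ^ k *
    (((n : ℝ) ^ (-σ) * Real.exp (-(T ^ 2 * Real.log (n / x) ^ 2 / 2)) : ℝ) : ℂ)) := by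
    intro n
    simp_rw [hterm]
    rw [integral_const_mul, GaussAvg_fourier T _ hT0]
    by_cases hn : n = 0
    · subst hn
      simp only [LSeries.term_zero, zero_mul, Nat.cast_zero]
      rw [Real.zero_rpow (by linarith)]
      simp
    · have hnr : (0 : ℝ) < n := by
        have : 0 < n := Nat.pos_of_ne_zero hn
        exact_mod_cast this
      rw [LSeries.term_of_ne_zero hn, hf]
      have e1 : Real.log (x / n) ^ 2 = Real.log (n / x) ^ 2 := by
        rw [← inv_div, Real.log_inv]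
        ring
      rw [e1]
      have e2 : (n : ℂ) ^ (σ : ℂ) = (((n : ℝ) ^ σ : ℝ) : ℂ) := by
        rw [Complex.ofReal_cpow hnr.le]
        simp
      rw [e2, Real.rpow_neg hnr.le]
      have : ((n : ℝ) ^ σ : ℝ) ≠ 0 := (Real.rpow_pos_of_pos hnr _).ne'
      rw [hc]
      push_cast
      field_simp
  have hDk : c * Dk a k σ T x = ∫ t, ∑' n, F n t := by
    rw [← hHS.tsum_eq]
    unfold Dk
    rw [← tsum_mul_left]
    exact tsum_congr fun n => (hval n).symm
  have htsum : ∀ t : ℝ, ∑' n, F n t = (Real.exp (-(t ^ 2 / (2 * T ^ 2))) : ℂ) *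
      (x : ℂ) ^ ((t : ℂ) * Complex.I) * LSeries f (σ + t * Complex.I) := by
    intro t
    simp only [F]
    rw [tsum_mul_left]
    rfl
  -- the bound
  have hb : ∀ t : ℝ, ‖∑' n, F n t‖ ≤ (M1 + M2 * Real.exp (-(U ^ 2 / (4 * T ^ 2)))) *
      Real.exp (-(t ^ 2 / (4 * T ^ 2))) := by
    intro t
    rw [htsum, norm_mul, norm_mul, hxn, mul_one, Complex.norm_real,
      Real.norm_of_nonneg (Real.exp_pos _).le]
    have hsplit : Real.exp (-(t ^ 2 / (2 * T ^ 2))) =
        Real.exp (-(t ^ 2 / (4 * T ^ 2))) * Real.exp (-(t ^ 2 / (4 * T ^ 2))) := by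
      rw [← Real.exp_add]
      congr 1
      field_simp
      ring
    have hle1 : Real.exp (-(t ^ 2 / (4 * T ^ 2))) ≤ 1 := by
      rw [Real.exp_le_one_iff]
      have : 0 ≤ t ^ 2 / (4 * T ^ 2) := by positivity
      linarith
    have hpos1 : 0 ≤ Real.exp (-(t ^ 2 / (4 * T ^ 2))) := (Real.exp_pos _).le
    have hpos2 : 0 ≤ Real.exp (-(U ^ 2 / (4 * T ^ 2))) := (Real.exp_pos _).le
    rcases le_or_gt |t| U with htU | htU
    · calc Real.exp (-(t ^ 2 / (2 * T ^ 2))) * ‖LSeries f (σ + t * Complex.I)‖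
          ≤ Real.exp (-(t ^ 2 / (2 * T ^ 2))) * M1 := by
            gcongr
            exact hL1 t htU
        _ = Real.exp (-(t ^ 2 / (4 * T ^ 2))) * M1 * Real.exp (-(t ^ 2 / (4 * T ^ 2))) := by
            rw [hsplit]
            ring
        _ ≤ (M1 + M2 * Real.exp (-(U ^ 2 / (4 * T ^ 2)))) *
            Real.exp (-(t ^ 2 / (4 * T ^ 2))) := by
            refine mul_le_mul_of_nonneg_right ?_ hpos1
            have h1 : Real.exp (-(t ^ 2 / (4 * T ^ 2))) * M1 ≤ 1 * M1 :=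
              mul_le_mul_of_nonneg_right hle1 hM1
            have h2 : 0 ≤ M2 * Real.exp (-(U ^ 2 / (4 * T ^ 2))) := mul_nonneg hM2 hpos2
            linarith
    · have hU2 : Real.exp (-(t ^ 2 / (4 * T ^ 2))) ≤ Real.exp (-(U ^ 2 / (4 * T ^ 2))) := by
        apply Real.exp_le_exp.2
        have h1 : U ^ 2 ≤ t ^ 2 := by
          rw [← sq_abs t]
          exact pow_le_pow_left₀ hU htU.le 2
        have h2 : U ^ 2 / (4 * T ^ 2) ≤ t ^ 2 / (4 * T ^ 2) := by gcongr
        linarith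
      calc Real.exp (-(t ^ 2 / (2 * T ^ 2))) * ‖LSeries f (σ + t * Complex.I)‖
          ≤ Real.exp (-(t ^ 2 / (2 * T ^ 2))) * M2 := by
            gcongr
            exact hL2 t
        _ = (M2 * Real.exp (-(t ^ 2 / (4 * T ^ 2)))) * Real.exp (-(t ^ 2 / (4 * T ^ 2))) := by
            rw [hsplit]
            ring
        _ ≤ (M1 + M2 * Real.exp (-(U ^ 2 / (4 * T ^ 2)))) *
            Real.exp (-(t ^ 2 / (4 * T ^ 2))) := by
            refine mul_le_mul_of_nonneg_right ?_ hpos1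
            have h1 : M2 * Real.exp (-(t ^ 2 / (4 * T ^ 2))) ≤
                M2 * Real.exp (-(U ^ 2 / (4 * T ^ 2))) := mul_le_mul_of_nonneg_left hU2 hM2
            linarith
  have hgauss2 : Integrable (fun t : ℝ => Real.exp (-(t ^ 2 / (4 * T ^ 2)))) := by
    have := integrable_exp_neg_mul_sq (b := 1 / (4 * T ^ 2)) (by positivity)
    refine this.congr (Filter.Eventually.of_forall fun t => ?_)
    simp only
    congr 1
    ring
  have hint2 : ∫ t : ℝ, Real.exp (-(t ^ 2 / (4 * T ^ 2))) = Real.sqrt (4 * Real.pi * T ^ 2) := by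
    have h := integral_gaussian (1 / (4 * T ^ 2))
    have e : ∀ t : ℝ, Real.exp (-(t ^ 2 / (4 * T ^ 2))) = Real.exp (-(1 / (4 * T ^ 2)) * t ^ 2) := by
      intro t
      congr 1
      ring
    simp_rw [e]
    rw [h]
    congr 1
    field_simp
  have hnorm := norm_integral_le_of_norm_le (hgauss2.const_mul
    (M1 + M2 * Real.exp (-(U ^ 2 / (4 * T ^ 2))))) (Filter.Eventually.of_forall hb)
  rw [integral_const_mul, hint2, ← hDk, norm_mul, hc, Complex.norm_real,
    Real.norm_of_nonneg (Real.sqrt_nonneg _)] at hnorm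
  have hs : Real.sqrt (4 * Real.pi * T ^ 2) = Real.sqrt 2 * Real.sqrt (2 * Real.pi * T ^ 2) := by
    rw [← Real.sqrt_mul (by norm_num)]
    congr 1
    ring
  rw [hs] at hnorm
  have hpos : 0 < Real.sqrt (2 * Real.pi * T ^ 2) := Real.sqrt_pos.2 (by positivity)
  refine le_of_mul_le_mul_left (le_trans hnorm (le_of_eq ?_)) hpos
  ring

end Pool.MP_dd84fd_nt.ZR
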