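import Pool.Agent.Lib.MP_dd84fd_nt.ZR.Win

/-!
# ZR-Loc: the factor `(log n)^k` is `(log x)^k` on the window

`v = log (n/x)`, `|(log x + v)^k - (log x)^k| ≤ k |v| (log x + |v|)^(k-1)` (for `n ≥ 1`; the term `n = 0`
vanishes).
`|v| ≤ log x / (k+1)`: `(log x + |v|)^(k-1) ≤ e (log x)^(k-1)` and `|v| e^(-T²v²/2) ≤ (2/T) e^(-T²v²/4)`,
sum `≤ C/T` by `win`: in total `C k (log x)^(k-1) / T²`.
`|v| > log x / (k+1)`: `k |v| (log x + |v|)^(k-1) ≤ k (log x + |v|)^k ≤ k k! exp (log x + |v|)`,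
`|v| - T²v²/8 ≤ 2/T² ≤ 2`, `e^(-T²v²/8) ≤ e^(-2 (log x)²)` as `T ≥ 4 (k+1)`, `k! ≤ (log x)^k`,
`x e^(-2 (log x)²) ≤ 1/x ≤ 1/T²`, and `win` for the rest.
-/

set_option autoImplicit false

namespace Pool.MP_dd84fd_nt.ZR

open Finset
open Pool.MP_dd84fd_nt.SW (Dk)

private theorem loc_pow (a b M : ℝ) (ha : 0 ≤ a) (hb : 0 ≤ b) (haM : a ≤ M) (hbM : b ≤ M) (m : ℕ) :
    |a ^ (m + 1) - b ^ (m + 1)| ≤ (m + 1) * |a - b| * M ^ m := by
  induction m with
  | zero => simp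
  | succ m ih =>
    have h1 : a ^ (m + 1 + 1) - b ^ (m + 1 + 1) =
        a * (a ^ (m + 1) - b ^ (m + 1)) + b ^ (m + 1) * (a - b) := by ring
    rw [h1]
    have hM : 0 ≤ M := ha.trans haM
    have h2 : |a * (a ^ (m + 1) - b ^ (m + 1))| ≤ M * ((m + 1) * |a - b| * M ^ m) := by
      rw [abs_mul, abs_of_nonneg ha]
      exact mul_le_mul haM ih (abs_nonneg _) hM
    have h3 : |b ^ (m + 1) * (a - b)| ≤ M ^ (m + 1) * |a - b| := by
      rw [abs_mul, abs_of_nonneg (pow_nonneg hb _)]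
      exact mul_le_mul_of_nonneg_right (pow_le_pow_left₀ hb hbM _) (abs_nonneg _)
    calc |a * (a ^ (m + 1) - b ^ (m + 1)) + b ^ (m + 1) * (a - b)|
        ≤ |a * (a ^ (m + 1) - b ^ (m + 1))| + |b ^ (m + 1) * (a - b)| := abs_add_le _ _
      _ ≤ M * ((m + 1) * |a - b| * M ^ m) + M ^ (m + 1) * |a - b| := add_le_add h2 h3
      _ = (((m + 1 : ℕ) : ℝ) + 1) * |a - b| * M ^ (m + 1) := by push_cast; ring

private theorem loc_exp_one : Real.exp 1 ≤ 3 := by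
  have := Real.exp_one_lt_d9
  linarith

/-- the pointwise bound, in terms of `v = log n - L` -/
private theorem loc_pt (m : ℕ) (L T v : ℝ) (hL : (m : ℝ) + 2 ≤ L) (hT : 4 * ((m : ℝ) + 2) ≤ T)
    (hTL : T ^ 2 ≤ Real.exp L) (hv : 0 ≤ L + v) :
    |(L + v) ^ (m + 1) - L ^ (m + 1)| * Real.exp (-(T ^ 2 * v ^ 2 / 2)) ≤
      3 * ((m : ℝ) + 1) * L ^ (m + 1) / T * Real.exp (-(T ^ 2 * v ^ 2 / 4)) := by
  have hm : (0 : ℝ) ≤ m := Nat.cast_nonneg m
  have hL1 : 1 ≤ L := by linarith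
  have hL0 : 0 < L := by linarith
  have hT4 : 4 ≤ T := by linarith
  have hT0 : 0 < T := by linarith
  have habs : 0 ≤ |v| := abs_nonneg v
  have hd : |(L + v) ^ (m + 1) - L ^ (m + 1)| ≤ (m + 1) * |v| * (L + |v|) ^ m := by
    have h := loc_pow (L + v) L (L + |v|) hv hL0.le (by linarith [le_abs_self v]) (by linarith) m
    rwa [add_sub_cancel_left] at h
  have he1 := loc_exp_one
  have hsplit : Real.exp (-(T ^ 2 * v ^ 2 / 2)) =
      Real.exp (-(T ^ 2 * v ^ 2 / 4)) * Real.exp (-(T ^ 2 * v ^ 2 / 4)) := by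
    rw [← Real.exp_add]
    congr 1
    ring
  have hE0 : 0 < Real.exp (-(T ^ 2 * v ^ 2 / 4)) := Real.exp_pos _
  have hpos : 0 ≤ 3 * ((m : ℝ) + 1) * L ^ (m + 1) / T := by positivity
  by_cases hc : |v| ≤ L / (m + 2)
  · -- the local part
    have h1 : (L + |v|) ^ m ≤ 3 * L ^ m := by
      have h2 : L + |v| ≤ L * Real.exp (1 / (m + 2)) := by
        have h3 : 1 / ((m : ℝ) + 2) + 1 ≤ Real.exp (1 / (m + 2)) := Real.add_one_le_exp _
        have h4 : L * (1 / ((m : ℝ) + 2) + 1) ≤ L * Real.exp (1 / (m + 2)) :=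
          mul_le_mul_of_nonneg_left h3 hL0.le
        have h5 : L * (1 / ((m : ℝ) + 2) + 1) = L + L / (m + 2) := by ring
        linarith
      have h6 : (L + |v|) ^ m ≤ (L * Real.exp (1 / (m + 2))) ^ m :=
        pow_le_pow_left₀ (by linarith) h2 m
      have h7 : (L * Real.exp (1 / ((m : ℝ) + 2))) ^ m ≤ L ^ m * 3 := by
        rw [mul_pow, ← Real.exp_nat_mul]
        refine mul_le_mul_of_nonneg_left ?_ (pow_nonneg hL0.le _)
        refine le_trans (Real.exp_le_exp.2 ?_) he1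
        rw [mul_one_div, div_le_one (by linarith)]
        linarith
      linarith
    have h8 : |v| * Real.exp (-(T ^ 2 * v ^ 2 / 4)) ≤ 1 / T := by
      rw [le_div_iff₀ hT0]
      have h9 : T * |v| ≤ Real.exp (T ^ 2 * v ^ 2 / 4) := by
        refine le_trans ?_ (Real.add_one_le_exp _)
        have h10 : T ^ 2 * v ^ 2 = (T * |v|) ^ 2 := by rw [mul_pow, sq_abs]
        rw [h10]
        nlinarith [sq_nonneg (T * |v| / 2 - 1)]
      calc |v| * Real.exp (-(T ^ 2 * v ^ 2 / 4)) * T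
          = (T * |v|) * Real.exp (-(T ^ 2 * v ^ 2 / 4)) := by ring
        _ ≤ Real.exp (T ^ 2 * v ^ 2 / 4) * Real.exp (-(T ^ 2 * v ^ 2 / 4)) :=
          mul_le_mul_of_nonneg_right h9 hE0.le
        _ = 1 := by rw [← Real.exp_add, add_neg_cancel, Real.exp_zero]
    have h11 : L ^ m ≤ L ^ (m + 1) := pow_le_pow_right₀ hL1 (Nat.le_succ m)
    calc |(L + v) ^ (m + 1) - L ^ (m + 1)| * Real.exp (-(T ^ 2 * v ^ 2 / 2))
        ≤ ((m + 1) * |v| * (3 * L ^ (m + 1))) * Real.exp (-(T ^ 2 * v ^ 2 / 2)) := by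
          refine mul_le_mul_of_nonneg_right (hd.trans ?_) (Real.exp_pos _).le
          refine mul_le_mul_of_nonneg_left (h1.trans (by linarith)) (by positivity)
      _ = 3 * ((m : ℝ) + 1) * L ^ (m + 1) * (|v| * Real.exp (-(T ^ 2 * v ^ 2 / 4))) *
          Real.exp (-(T ^ 2 * v ^ 2 / 4)) := by rw [hsplit]; ring
      _ ≤ 3 * ((m : ℝ) + 1) * L ^ (m + 1) * (1 / T) * Real.exp (-(T ^ 2 * v ^ 2 / 4)) := by
          refine mul_le_mul_of_nonneg_right ?_ hE0.le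
          exact mul_le_mul_of_nonneg_left h8 (by positivity)
      _ = 3 * ((m : ℝ) + 1) * L ^ (m + 1) / T * Real.exp (-(T ^ 2 * v ^ 2 / 4)) := by ring
  · -- the tail
    push Not at hc
    have hvL : L < (m + 2) * |v| := by
      rw [div_lt_iff₀ (by linarith)] at hc
      linarith
    have h1 : |v| * (L + |v|) ^ m ≤ L ^ (m + 1) * Real.exp (L + |v|) := by
      have h2 : |v| * (L + |v|) ^ m ≤ (L + |v|) ^ (m + 1) := by
        rw [pow_succ, mul_comm]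
        exact mul_le_mul_of_nonneg_left (by linarith) (pow_nonneg (by linarith) _)
      have h3 := Real.pow_div_factorial_le_exp (L + |v|) (by linarith) (m + 1)
      rw [div_le_iff₀ (by exact_mod_cast Nat.factorial_pos _)] at h3
      have h4 : (((m + 1).factorial : ℕ) : ℝ) ≤ L ^ (m + 1) := by
        have h5 : (((m + 1).factorial : ℕ) : ℝ) ≤ (((m + 1) ^ (m + 1) : ℕ) : ℝ) := by
          exact_mod_cast Nat.factorial_le_pow (m + 1)
        refine h5.trans ?_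
        push_cast
        exact pow_le_pow_left₀ (by linarith) (by linarith) _
      calc |v| * (L + |v|) ^ m ≤ (L + |v|) ^ (m + 1) := h2
        _ ≤ Real.exp (L + |v|) * ((m + 1).factorial : ℕ) := h3
        _ ≤ Real.exp (L + |v|) * L ^ (m + 1) := mul_le_mul_of_nonneg_left h4 (Real.exp_pos _).le
        _ = L ^ (m + 1) * Real.exp (L + |v|) := by ring
    have hTv : 2 * L ^ 2 ≤ T ^ 2 * v ^ 2 / 8 := by
      have h6 : 4 * L ≤ T * |v| := by
        have h7 : 4 * (((m : ℝ) + 2) * |v|) ≤ T * |v| := by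
          have := mul_le_mul_of_nonneg_right hT habs
          linarith
        linarith
      have h8 : T ^ 2 * v ^ 2 = (T * |v|) ^ 2 := by rw [mul_pow, sq_abs]
      rw [h8]
      have h9 : (4 * L) ^ 2 ≤ (T * |v|) ^ 2 := pow_le_pow_left₀ (by linarith) h6 2
      nlinarith
    have hv8 : |v| - T ^ 2 * v ^ 2 / 8 ≤ 1 := by
      have h8 : v ^ 2 = |v| ^ 2 := (sq_abs v).symm
      rw [h8]
      have h9 : (16 : ℝ) ≤ T ^ 2 := by nlinarith
      have h10 : 16 * |v| ^ 2 ≤ T ^ 2 * |v| ^ 2 := mul_le_mul_of_nonneg_right h9 (sq_nonneg _)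
      nlinarith [sq_nonneg (|v| - 1 / 4)]
    have hexp : Real.exp (L + |v|) * Real.exp (-(T ^ 2 * v ^ 2 / 2)) ≤
        3 / T * Real.exp (-(T ^ 2 * v ^ 2 / 4)) := by
      have h2 : L + |v| + -(T ^ 2 * v ^ 2 / 2) ≤ -(T ^ 2 * v ^ 2 / 4) + (1 + -L) := by
        nlinarith
      have h3 : Real.exp (-L) ≤ 1 / T := by
        rw [Real.exp_neg, ← one_div]
        refine one_div_le_one_div_of_le hT0 ?_
        nlinarith
      rw [← Real.exp_add]
      refine (Real.exp_le_exp.2 h2).trans ?_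
      rw [Real.exp_add, Real.exp_add]
      have h4 : Real.exp 1 * Real.exp (-L) ≤ 3 * (1 / T) :=
        mul_le_mul he1 h3 (Real.exp_pos _).le (by norm_num)
      calc Real.exp (-(T ^ 2 * v ^ 2 / 4)) * (Real.exp 1 * Real.exp (-L))
          ≤ Real.exp (-(T ^ 2 * v ^ 2 / 4)) * (3 * (1 / T)) := mul_le_mul_of_nonneg_left h4 hE0.le
        _ = 3 / T * Real.exp (-(T ^ 2 * v ^ 2 / 4)) := by ring
    calc |(L + v) ^ (m + 1) - L ^ (m + 1)| * Real.exp (-(T ^ 2 * v ^ 2 / 2))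
        ≤ ((m + 1) * (|v| * (L + |v|) ^ m)) * Real.exp (-(T ^ 2 * v ^ 2 / 2)) := by
          refine mul_le_mul_of_nonneg_right (hd.trans (le_of_eq ?_)) (Real.exp_pos _).le
          ring
      _ ≤ ((m + 1) * (L ^ (m + 1) * Real.exp (L + |v|))) * Real.exp (-(T ^ 2 * v ^ 2 / 2)) := by
          refine mul_le_mul_of_nonneg_right ?_ (Real.exp_pos _).le
          exact mul_le_mul_of_nonneg_left h1 (by linarith)
      _ = (m + 1) * L ^ (m + 1) * (Real.exp (L + |v|) * Real.exp (-(T ^ 2 * v ^ 2 / 2))) := by ring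
      _ ≤ (m + 1) * L ^ (m + 1) * (3 / T * Real.exp (-(T ^ 2 * v ^ 2 / 4))) :=
          mul_le_mul_of_nonneg_left hexp (by positivity)
      _ = 3 * ((m : ℝ) + 1) * L ^ (m + 1) / T * Real.exp (-(T ^ 2 * v ^ 2 / 4)) := by ring

/-- the summand -/
private theorem loc_term (m : ℕ) (z : ℂ) (hz : ‖z‖ ≤ 1) (σ T x : ℝ) (hσ : 1 < σ) (hx : 3 ≤ x)
    (hL : (m : ℝ) + 2 ≤ Real.log x) (hT : 4 * ((m : ℝ) + 2) ≤ T) (hTx : T ^ 2 ≤ x) (n : ℕ) :
    ‖z * (Real.log n : ℂ) ^ (m + 1) *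
        (((n : ℝ) ^ (-σ) * Real.exp (-(T ^ 2 * Real.log (n / x) ^ 2 / 2)) : ℝ) : ℂ) -
      ((Real.log x : ℝ) : ℂ) ^ (m + 1) * (z * (Real.log n : ℂ) ^ 0 *
        (((n : ℝ) ^ (-σ) * Real.exp (-(T ^ 2 * Real.log (n / x) ^ 2 / 2)) : ℝ) : ℂ))‖ ≤
      3 * ((m : ℝ) + 1) * Real.log x ^ (m + 1) / T *
        ((n : ℝ) ^ (-σ) * Real.exp (-(T ^ 2 * Real.log (n / x) ^ 2 / 4))) := by
  rcases Nat.eq_zero_or_pos n with hn | hn
  · subst hn
    have h0 : ((0 : ℕ) : ℝ) ^ (-σ) = 0 := by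
      rw [Nat.cast_zero, Real.zero_rpow (by linarith)]
    rw [h0]
    simp
  · have hn0 : (0 : ℝ) < n := by exact_mod_cast hn
    have hx0 : 0 < x := by linarith
    obtain ⟨v, hv⟩ : ∃ v : ℝ, v = Real.log (n / x) := ⟨_, rfl⟩
    have hlog : Real.log n = Real.log x + v := by
      rw [hv, Real.log_div hn0.ne' hx0.ne']
      ring
    have hge : 0 ≤ Real.log x + v := by
      rw [← hlog]
      exact Real.log_natCast_nonneg n
    have hpt := loc_pt m (Real.log x) T v hL hT (by rwa [Real.exp_log hx0]) hge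
    rw [← hv, hlog]
    have h1 : z * ((Real.log x + v : ℝ) : ℂ) ^ (m + 1) *
        (((n : ℝ) ^ (-σ) * Real.exp (-(T ^ 2 * v ^ 2 / 2)) : ℝ) : ℂ) -
      ((Real.log x : ℝ) : ℂ) ^ (m + 1) * (z * ((Real.log x + v : ℝ) : ℂ) ^ 0 *
        (((n : ℝ) ^ (-σ) * Real.exp (-(T ^ 2 * v ^ 2 / 2)) : ℝ) : ℂ)) =
      z * ((((Real.log x + v) ^ (m + 1) - Real.log x ^ (m + 1)) *
        ((n : ℝ) ^ (-σ) * Real.exp (-(T ^ 2 * v ^ 2 / 2))) : ℝ) : ℂ) := by
      push_cast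
      ring
    rw [h1, norm_mul, Complex.norm_real, Real.norm_eq_abs]
    have hr : 0 ≤ (n : ℝ) ^ (-σ) := Real.rpow_nonneg hn0.le _
    calc ‖z‖ * |((Real.log x + v) ^ (m + 1) - Real.log x ^ (m + 1)) *
          ((n : ℝ) ^ (-σ) * Real.exp (-(T ^ 2 * v ^ 2 / 2)))|
        ≤ 1 * |((Real.log x + v) ^ (m + 1) - Real.log x ^ (m + 1)) *
          ((n : ℝ) ^ (-σ) * Real.exp (-(T ^ 2 * v ^ 2 / 2)))| :=
          mul_le_mul_of_nonneg_right hz (abs_nonneg _)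
      _ = (n : ℝ) ^ (-σ) * (|(Real.log x + v) ^ (m + 1) - Real.log x ^ (m + 1)| *
          Real.exp (-(T ^ 2 * v ^ 2 / 2))) := by
          rw [one_mul, abs_mul, abs_mul, abs_of_nonneg hr, abs_of_nonneg (Real.exp_pos _).le]
          ring
      _ ≤ (n : ℝ) ^ (-σ) * (3 * ((m : ℝ) + 1) * Real.log x ^ (m + 1) / T *
          Real.exp (-(T ^ 2 * v ^ 2 / 4))) := mul_le_mul_of_nonneg_left hpt hr
      _ = 3 * ((m : ℝ) + 1) * Real.log x ^ (m + 1) / T *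
          ((n : ℝ) ^ (-σ) * Real.exp (-(T ^ 2 * v ^ 2 / 4))) := by ring

theorem loc : ∃ C : ℝ, 0 < C ∧ ∀ (a : ℕ → ℂ) (k : ℕ) (σ T x : ℝ), (∀ n, ‖a n‖ ≤ 1) → 1 < σ →
    σ ≤ 2 → 3 ≤ x → 4 * (k + 1) ≤ T → (k : ℝ) + 1 ≤ Real.log x → T ^ 2 ≤ x →
    ‖Dk a k σ T x - ((Real.log x : ℝ) : ℂ) ^ k * Dk a 0 σ T x‖ ≤
      C * Real.log x ^ k * (k + 1) / T ^ 2 := by
  obtain ⟨C₀, hC₀, hw⟩ := win
  refine ⟨3 * C₀, by positivity, ?_⟩
  intro a k σ T x ha hσ hσ2 hx hT hL hTx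
  have hk0 : (0 : ℝ) ≤ k := Nat.cast_nonneg k
  have hT1 : 1 ≤ T := by linarith
  have hT0 : 0 < T := by linarith
  have hL0 : 0 < Real.log x := by linarith
  rcases Nat.eq_zero_or_pos k with hk | hk
  · subst hk
    rw [pow_zero, one_mul, sub_self, norm_zero]
    positivity
  · obtain ⟨m, rfl⟩ : ∃ m, k = m + 1 := ⟨k - 1, by omega⟩
    obtain ⟨hs, hsum⟩ := hw σ T x hσ hσ2 hT1 hTx
    have hL' : (m : ℝ) + 2 ≤ Real.log x := by push_cast at hL; linarith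
    have hT' : 4 * ((m : ℝ) + 2) ≤ T := by push_cast at hT; linarith
    have hterm := fun n => loc_term m (a n) (ha n) σ T x hσ hx hL' hT' hTx n
    have hs0 : Summable (fun n : ℕ => a n * (Real.log n : ℂ) ^ 0 *
        (((n : ℝ) ^ (-σ) * Real.exp (-(T ^ 2 * Real.log (n / x) ^ 2 / 2)) : ℝ) : ℂ)) := by
      refine Summable.of_norm_bounded hs (fun n => ?_)
      rw [pow_zero, mul_one, norm_mul, Complex.norm_real, Real.norm_eq_abs]
      have hr : 0 ≤ (n : ℝ) ^ (-σ) := Real.rpow_nonneg (Nat.cast_nonneg n) _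
      rw [abs_of_nonneg (mul_nonneg hr (Real.exp_pos _).le)]
      have he : Real.exp (-(T ^ 2 * Real.log (n / x) ^ 2 / 2)) ≤
          Real.exp (-(T ^ 2 * Real.log (n / x) ^ 2 / 4)) := by
        apply Real.exp_le_exp.2
        have : 0 ≤ T ^ 2 * Real.log (n / x) ^ 2 := by positivity
        linarith
      calc ‖a n‖ * ((n : ℝ) ^ (-σ) * Real.exp (-(T ^ 2 * Real.log (n / x) ^ 2 / 2)))
          ≤ 1 * ((n : ℝ) ^ (-σ) * Real.exp (-(T ^ 2 * Real.log (n / x) ^ 2 / 2))) :=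
            mul_le_mul_of_nonneg_right (ha n) (mul_nonneg hr (Real.exp_pos _).le)
        _ ≤ (n : ℝ) ^ (-σ) * Real.exp (-(T ^ 2 * Real.log (n / x) ^ 2 / 4)) := by
            rw [one_mul]
            exact mul_le_mul_of_nonneg_left he hr
    have hK : HasSum (fun n : ℕ => 3 * ((m : ℝ) + 1) * Real.log x ^ (m + 1) / T *
        ((n : ℝ) ^ (-σ) * Real.exp (-(T ^ 2 * Real.log (n / x) ^ 2 / 4))))
        (3 * ((m : ℝ) + 1) * Real.log x ^ (m + 1) / T *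
          ∑' n : ℕ, (n : ℝ) ^ (-σ) * Real.exp (-(T ^ 2 * Real.log (n / x) ^ 2 / 4))) :=
      hs.hasSum.mul_left _
    have hsd := Summable.of_norm_bounded hK.summable hterm
    have hsL := hs0.mul_left (((Real.log x : ℝ) : ℂ) ^ (m + 1))
    have hsk : Summable (fun n : ℕ => a n * (Real.log n : ℂ) ^ (m + 1) *
        (((n : ℝ) ^ (-σ) * Real.exp (-(T ^ 2 * Real.log (n / x) ^ 2 / 2)) : ℝ) : ℂ)) := by
      refine (hsd.add hsL).congr (fun n => ?_)
      ring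
    have heq : Dk a (m + 1) σ T x - ((Real.log x : ℝ) : ℂ) ^ (m + 1) * Dk a 0 σ T x =
        ∑' n : ℕ, (a n * (Real.log n : ℂ) ^ (m + 1) *
          (((n : ℝ) ^ (-σ) * Real.exp (-(T ^ 2 * Real.log (n / x) ^ 2 / 2)) : ℝ) : ℂ) -
          ((Real.log x : ℝ) : ℂ) ^ (m + 1) * (a n * (Real.log n : ℂ) ^ 0 *
          (((n : ℝ) ^ (-σ) * Real.exp (-(T ^ 2 * Real.log (n / x) ^ 2 / 2)) : ℝ) : ℂ))) := by
      unfold Dk
      rw [← tsum_mul_left, ← hsk.tsum_sub hsL]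
    rw [heq]
    refine (tsum_of_norm_bounded hK hterm).trans ?_
    have hpos : 0 ≤ 3 * ((m : ℝ) + 1) * Real.log x ^ (m + 1) / T := by positivity
    calc 3 * ((m : ℝ) + 1) * Real.log x ^ (m + 1) / T *
          ∑' n : ℕ, (n : ℝ) ^ (-σ) * Real.exp (-(T ^ 2 * Real.log (n / x) ^ 2 / 4))
        ≤ 3 * ((m : ℝ) + 1) * Real.log x ^ (m + 1) / T * (C₀ / T) :=
          mul_le_mul_of_nonneg_left hsum hpos
      _ = 3 * C₀ * Real.log x ^ (m + 1) * ((m : ℝ) + 1) / T ^ 2 := by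
          field_simp
      _ ≤ 3 * C₀ * Real.log x ^ (m + 1) * (((m + 1 : ℕ) : ℝ) + 1) / T ^ 2 := by
          refine div_le_div_of_nonneg_right ?_ (by positivity)
          refine mul_le_mul_of_nonneg_left ?_ (by positivity)
          push_cast
          linarith

end Pool.MP_dd84fd_nt.ZR
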