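import Pool.Agent.Lib.MP_dd84fd_nt.ZR.Defs

/-!
# ZR-Ser: the Dirichlet series of `al χ (log n)^(k+1)` is, up to sign, the `k`-th derivative of `L'/L`

`LSeries (χ Λ) = - L'/L` (Mathlib: `DirichletCharacter.LSeries_twist_vonMangoldt_eq`),
`LSeries_iteratedDeriv`, `DirichletCharacter.LFunction_eq_LSeries` (equality on the open half plane
`Re s > 1`, so the derivatives agree), `al χ n * log n = χ n Λ n` for all `n` (both `0` at `0, 1`).
-/

set_option autoImplicit false

namespace Pool.MP_dd84fd_nt.ZR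

open Finset

private theorem ser_iter (g : ℕ → ℂ) (k : ℕ) (n : ℕ) :
    (LSeries.logMul^[k] g) n = (Complex.log n) ^ k * g n := by
  induction k generalizing g with
  | zero => simp
  | succ k ih =>
    rw [Function.iterate_succ_apply, ih]
    simp only [LSeries.logMul]
    ring

private theorem ser_al {q : ℕ} (χ : DirichletCharacter ℂ q) (k : ℕ) :
    (fun n : ℕ => al χ n * (Real.log n : ℂ) ^ (k + 1)) =
      LSeries.logMul^[k] (fun n : ℕ => χ n * ((ArithmeticFunction.vonMangoldt n : ℝ) : ℂ)) := by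
  funext n
  rw [ser_iter, ← Complex.natCast_log, al]
  by_cases h : Real.log n = 0
  · have h2 : ArithmeticFunction.vonMangoldt n = 0 := by
      have h3 := ArithmeticFunction.vonMangoldt_le_log (n := n)
      have h4 := ArithmeticFunction.vonMangoldt_nonneg (n := n)
      rw [h] at h3
      exact le_antisymm h3 h4
    rw [h2, h]
    simp
  · have h2 : (Real.log n : ℂ) ≠ 0 := by exact_mod_cast h
    rw [Complex.ofReal_div, pow_succ]
    field_simp

private theorem ser_abs {q : ℕ} (χ : DirichletCharacter ℂ q) (s : ℂ) (hs : 1 < s.re) :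
    LSeries.abscissaOfAbsConv (fun n : ℕ => χ n * ((ArithmeticFunction.vonMangoldt n : ℝ) : ℂ)) <
      s.re := by
  have h1 : LSeries.abscissaOfAbsConv
      (fun n : ℕ => χ n * ((ArithmeticFunction.vonMangoldt n : ℝ) : ℂ)) ≤ ((1 : ℝ) : EReal) := by
    apply LSeries.abscissaOfAbsConv_le_of_forall_lt_LSeriesSummable
    intro y hy
    exact DirichletCharacter.LSeriesSummable_twist_vonMangoldt χ (s := (y : ℂ))
      (by rw [Complex.ofReal_re]; exact hy)
  exact lt_of_le_of_lt h1 (by exact_mod_cast hs)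

theorem ser {q : ℕ} [NeZero q] (χ : DirichletCharacter ℂ q) (hχ : χ ≠ 1) (k : ℕ) (s : ℂ)
    (hs : 1 < s.re) :
    ‖LSeries (fun n => al χ n * (Real.log n : ℂ) ^ (k + 1)) s‖ =
      ‖iteratedDeriv k (fun z => deriv χ.LFunction z / χ.LFunction z) s‖ := by
  have h1 : (fun z => deriv χ.LFunction z / χ.LFunction z) =ᶠ[nhds s]
      fun z => - LSeries (fun n : ℕ => χ n * ((ArithmeticFunction.vonMangoldt n : ℝ) : ℂ)) z := by
    have h : {z : ℂ | 1 < z.re} ∈ nhds s :=
      (isOpen_lt continuous_const Complex.continuous_re).mem_nhds hs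
    filter_upwards [h] with z hz
    rw [DirichletCharacter.deriv_LFunction_eq_deriv_LSeries χ hz,
      DirichletCharacter.LFunction_eq_LSeries χ hz]
    have h2 := DirichletCharacter.LSeries_twist_vonMangoldt_eq χ hz
    have h3 : LSeries (fun n : ℕ => χ n * ((ArithmeticFunction.vonMangoldt n : ℝ) : ℂ)) z =
        -deriv (LSeries fun n : ℕ => χ n) z / LSeries (fun n : ℕ => χ n) z := h2
    rw [h3, neg_div, neg_neg]
  rw [h1.iteratedDeriv_eq k, iteratedDeriv_fun_neg, norm_neg, ser_al,
    LSeries_iteratedDeriv k (ser_abs χ s hs), norm_mul, norm_pow, norm_neg, norm_one, one_pow,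
    one_mul]

end Pool.MP_dd84fd_nt.ZR
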