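import Pool.Agent.Lib.MP_dd84fd_nt.ZR.Defs

/-!
# ZR-Tr: the trivial bound

`(log n)^k ≤ k! (2/(σ-1))^k n^((σ-1)/2)` (from `x^k/k! ≤ exp x`) and
`∑ n^(-1-u) ≤ 1 + 1/u`, `u = (σ-1)/2`.
-/

/-!
# ZR-Tr: the trivial bound

`(log n)^k ≤ k! (2/(σ-1))^k n^((σ-1)/2)` (from `x^k/k! ≤ exp x`) and
`∑ n^(-1-u) ≤ 1 + 1/u`, `u = (σ-1)/2`.
-/

set_option autoImplicit false

namespace Pool.MP_dd84fd_nt.ZR

open Finset

private theorem tr_zeta (s : ℝ) (hs : 1 < s) :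
    HasSum (fun n : ℕ => 1 / (n : ℝ) ^ s) (∑' n : ℕ, 1 / (n : ℝ) ^ s) ∧
      ∑' n : ℕ, 1 / (n : ℝ) ^ s ≤ 1 + 1 / (s - 1) := by
  have hsum : Summable (fun n : ℕ => 1 / (n : ℝ) ^ s) := Real.summable_one_div_nat_rpow.mpr hs
  refine ⟨hsum.hasSum, ?_⟩
  rw [hsum.tsum_eq_zero_add]
  have h := ZetaAsymptotics.zeta_limit_aux1 hs
  have hn : 0 ≤ ZetaAsymptotics.termTSum s :=
    tsum_nonneg (fun n => ZetaAsymptotics.term_nonneg (n + 1) s)
  have h0 : 1 / ((0 : ℕ) : ℝ) ^ s = 0 := by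
    rw [Nat.cast_zero, Real.zero_rpow (by linarith), div_zero]
  rw [h0, zero_add]
  have hc : ∑' n : ℕ, 1 / (((n + 1 : ℕ) : ℝ)) ^ s = ∑' n : ℕ, 1 / ((n : ℝ) + 1) ^ s := by
    refine tsum_congr fun n => ?_
    push_cast; rfl
  rw [hc]
  have : 0 ≤ s * ZetaAsymptotics.termTSum s := mul_nonneg (by linarith) hn
  linarith

theorem tr (a : ℕ → ℂ) (k : ℕ) (σ t : ℝ) (ha : ∀ n, ‖a n‖ ≤ 1) (h1 : 1 < σ) (h2 : σ ≤ 2) :
    ‖LSeries (fun n => a n * (Real.log n : ℂ) ^ k) (σ + t * Complex.I)‖ ≤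
      4 * k.factorial * (2 / (σ - 1)) ^ (k + 1) := by
  obtain ⟨u, hu⟩ : ∃ u : ℝ, u = (σ - 1) / 2 := ⟨_, rfl⟩
  have hu0 : 0 < u := by rw [hu]; linarith
  have hu1 : u ≤ 1 / 2 := by rw [hu]; linarith
  have h2u : 2 / (σ - 1) = 1 / u := by
    have : σ - 1 = 2 * u := by rw [hu]; ring
    rw [this]; field_simp
  obtain ⟨hS, hle⟩ := tr_zeta (1 + u) (by linarith)
  have hS' := hS.mul_left ((k.factorial : ℝ) * (1 / u) ^ k)
  have hb : ∀ n : ℕ, ‖LSeries.term (fun n => a n * (Real.log n : ℂ) ^ k) (σ + t * Complex.I) n‖ ≤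
      (k.factorial : ℝ) * (1 / u) ^ k * (1 / (n : ℝ) ^ (1 + u)) := by
    intro n
    rcases Nat.eq_zero_or_pos n with rfl | hn
    · rw [LSeries.term_zero, norm_zero]
      positivity
    · have hnr : (1 : ℝ) ≤ n := by exact_mod_cast hn
      have hn0 : (0 : ℝ) < n := by linarith
      rw [LSeries.norm_term_eq, if_neg (by omega)]
      have hre : ((σ : ℂ) + t * Complex.I).re = σ := by simp
      rw [hre, norm_mul, norm_pow, Complex.norm_real, Real.norm_eq_abs,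
        abs_of_nonneg (Real.log_nonneg hnr)]
      have hlog : 0 ≤ Real.log n := Real.log_nonneg hnr
      have hx : 0 ≤ u * Real.log n := mul_nonneg hu0.le hlog
      have hexp := Real.pow_div_factorial_le_exp (u * Real.log n) hx k
      have hfac : (0 : ℝ) < k.factorial := by exact_mod_cast k.factorial_pos
      have he : Real.exp (u * Real.log n) = (n : ℝ) ^ u := by
        rw [Real.rpow_def_of_pos hn0, mul_comm]
      rw [he, div_le_iff₀ hfac, mul_pow] at hexp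
      have hlk : Real.log n ^ k ≤ (k.factorial : ℝ) * (1 / u) ^ k * (n : ℝ) ^ u := by
        have huk : 0 < u ^ k := pow_pos hu0 k
        have h3 : Real.log n ^ k = (1 / u) ^ k * (u ^ k * Real.log n ^ k) := by
          rw [one_div, inv_pow, ← mul_assoc, inv_mul_cancel₀ huk.ne', one_mul]
        rw [h3]
        calc (1 / u) ^ k * (u ^ k * Real.log n ^ k)
            ≤ (1 / u) ^ k * ((n : ℝ) ^ u * k.factorial) :=
              mul_le_mul_of_nonneg_left hexp (by positivity)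
          _ = (k.factorial : ℝ) * (1 / u) ^ k * (n : ℝ) ^ u := by ring
      have hσ : σ = (1 + u) + u := by rw [hu]; ring
      have hpow : (n : ℝ) ^ σ = (n : ℝ) ^ (1 + u) * (n : ℝ) ^ u := by
        conv_lhs => rw [hσ]
        rw [Real.rpow_add hn0]
      have hp1 : 0 < (n : ℝ) ^ (1 + u) := Real.rpow_pos_of_pos hn0 _
      have hp2 : 0 < (n : ℝ) ^ u := Real.rpow_pos_of_pos hn0 _
      rw [hpow, div_le_iff₀ (mul_pos hp1 hp2)]
      calc ‖a n‖ * Real.log n ^ k ≤ 1 * ((k.factorial : ℝ) * (1 / u) ^ k * (n : ℝ) ^ u) :=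
            mul_le_mul (ha n) hlk (pow_nonneg hlog k) zero_le_one
        _ = (k.factorial : ℝ) * (1 / u) ^ k * (1 / (n : ℝ) ^ (1 + u)) *
              ((n : ℝ) ^ (1 + u) * (n : ℝ) ^ u) := by
            field_simp
  have hfin := tsum_of_norm_bounded hS' hb
  rw [LSeries]
  refine hfin.trans ?_
  have hu2 : 1 / (1 + u - 1) = 1 / u := by rw [add_sub_cancel_left]
  rw [hu2] at hle
  rw [h2u, pow_succ]
  have hP : 0 ≤ (k.factorial : ℝ) * (1 / u) ^ k := by positivity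
  have h1u : 2 ≤ 1 / u := by
    rw [le_div_iff₀ hu0]; linarith
  calc (k.factorial : ℝ) * (1 / u) ^ k * ∑' n : ℕ, 1 / (n : ℝ) ^ (1 + u)
      ≤ (k.factorial : ℝ) * (1 / u) ^ k * (1 + 1 / u) := mul_le_mul_of_nonneg_left hle hP
    _ ≤ (k.factorial : ℝ) * (1 / u) ^ k * (4 * (1 / u)) :=
        mul_le_mul_of_nonneg_left (by linarith) hP
    _ = 4 * k.factorial * ((1 / u) ^ k * (1 / u)) := by ring

end Pool.MP_dd84fd_nt.ZR
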