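import Pool.Agent.Lib.MP_dd84fd_nt.ZR.Der
import Pool.Agent.Lib.MP_dd84fd_nt.ZR.Ser
import Pool.Agent.Lib.MP_dd84fd_nt.ZR.Tr
import Pool.Agent.Lib.MP_dd84fd_nt.ZR.Gau
import Pool.Agent.Lib.MP_dd84fd_nt.ZR.Loc
import Pool.Agent.Lib.MP_dd84fd_nt.SW.MuChar

/-!
# ZR-Sum: small sums of `al χ` in a zero-free region

`L = log X`, `l = log log X`, `δ = N l / L`, `U = L^N`, `T = L^(B+2)`, `k = ⌊N c l / 40⌋` (we may
assume `c ≤ 1`), `N` large in terms of `B`, `c`.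
For `y`, `σ = 1 + 1/log y` and `x ∈ [√y, y]` (so `log x ≥ c L/2`):
`‖Dk (al χ) (k+1) σ T x‖ ≤ C (M1 + M2 exp (-((U-2)²/(4T²))))` by `gau`, `ser`, `der`, `tr`, with
`M1 = C log(q(U+3)/δ)/δ k! (2/δ)^k ≤ L³ k! (2/δ)^k`, `M2 = 4 (k+1)! (2L)^(k+2)`
(`(U-2)²/(4T²) ≥ L²` for `N ≥ B + 4`, which beats `(k+1)! (2L)^(k+2)`: `(k+1)! ≤ L^(k+1)`,
`L^(2k+5) = exp((2k+5) l) ≤ exp (L)`);
`k! (2/δ)^k / (log x)^k ≤ (2 k / (δ log x))^k ≤ (1/10)^k ≤ e^(-2k)` and `e^(-2k) ≤ e² L^(-N c/20)`;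
`loc` (with `k+1`): `‖Dk (al χ) 0 σ T x‖ ≤ R := C (L^(5-N c/20) + (k+2)/T² + e^(-L))`;
`SW.tauber 0`: `‖∑_{n≤y} al χ n‖ ≤ C (T y R + y/T) ≤ y / L^B`.
-/

set_option autoImplicit false

namespace Pool.MP_dd84fd_nt.ZR

open Finset Filter
open Pool.MP_dd84fd_nt.SW (Dk)

/-- the main inequality for one `x` -/
private theorem sumx_core {Cd Cg Cl : ℝ} (hCd : 0 < Cd) (hCg : 0 < Cg) (hCl : 0 < Cl)
    (hder : ∀ (q : ℕ) [NeZero q] (χ : DirichletCharacter ℂ q) (δ U : ℝ) (k : ℕ)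
      (s : ℂ), χ ≠ 1 → 0 < δ → δ ≤ 1 / 8 → 2 ≤ U → ZF χ δ U → 1 < s.re → s.re ≤ 1 + δ →
      |s.im| ≤ U - 2 →
      ‖iteratedDeriv k (fun z => deriv χ.LFunction z / χ.LFunction z) s‖ ≤
        Cd * Real.log (q * (U + 3) / δ) / δ * k.factorial * (2 / δ) ^ k)
    (hgau : ∀ (a : ℕ → ℂ) (k : ℕ) (σ T x M1 M2 U : ℝ),
      (∀ n, ‖a n‖ ≤ 1) → 1 < σ → 1 ≤ T → 0 < x → 0 ≤ M1 → 0 ≤ M2 → 0 ≤ U →
      (∀ t : ℝ, |t| ≤ U →
        ‖LSeries (fun n => a n * (Real.log n : ℂ) ^ k) (σ + t * Complex.I)‖ ≤ M1) →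
      (∀ t : ℝ, ‖LSeries (fun n => a n * (Real.log n : ℂ) ^ k) (σ + t * Complex.I)‖ ≤ M2) →
      ‖Dk a k σ T x‖ ≤ Cg * (M1 + M2 * Real.exp (-(U ^ 2 / (4 * T ^ 2)))))
    (hloc : ∀ (a : ℕ → ℂ) (k : ℕ) (σ T x : ℝ), (∀ n, ‖a n‖ ≤ 1) → 1 < σ →
      σ ≤ 2 → 3 ≤ x → 4 * (k + 1) ≤ T → (k : ℝ) + 1 ≤ Real.log x → T ^ 2 ≤ x →
      ‖Dk a k σ T x - ((Real.log x : ℝ) : ℂ) ^ k * Dk a 0 σ T x‖ ≤
        Cl * Real.log x ^ k * (k + 1) / T ^ 2)
    {q : ℕ} [NeZero q] (χ : DirichletCharacter ℂ q) (hχ : χ ≠ 1) {L δ U T σ x c : ℝ} {N B k : ℕ}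
    (hc0 : 0 < c)
    (hL4 : 4 ≤ L) (hδ : δ = N * Real.log L / L) (hN1 : 1 ≤ (N : ℝ) * Real.log L)
    (hδ8 : δ ≤ 1 / 8) (hU : U = L ^ N) (hT : T = L ^ (B + 2)) (hNB : B + 4 ≤ N)
    (hZ : ZF χ δ U) (hσ1 : 1 < σ) (hσδ : σ ≤ 1 + δ) (hσL : 1 / L ≤ σ - 1)
    (hlogq : Real.log (q * (U + 3) / δ) ≤ 3 * L)
    (hk : (k : ℝ) ≤ N * c * Real.log L / 40) (hk2 : (3 * (k : ℝ) + 5) * Real.log L ≤ L)
    (hkL : (k : ℝ) + 2 ≤ L) (hkx : (k : ℝ) + 2 ≤ Real.log x) (hkT : 4 * ((k : ℝ) + 2) ≤ T)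
    (hx3 : 3 ≤ x) (hTx : T ^ 2 ≤ x) (hxL : c * L / 2 ≤ Real.log x) :
    ‖Dk (al χ) 0 σ T x‖ ≤ Cg * (3 * Cd * L ^ 2 * Real.exp (-(2 * (k : ℝ))) +
      4 * Real.exp (-L)) + Cl * (k + 2) / T ^ 2 := by
  have hL0 : 0 < L := by linarith
  have hL1 : 1 ≤ L := by linarith
  have hl0 : 0 ≤ Real.log L := Real.log_nonneg hL1
  have hl1 : 1 ≤ Real.log L := by
    rw [Real.le_log_iff_exp_le hL0]
    have := Real.exp_one_lt_d9
    linarith
  have hδ0 : 0 < δ := by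
    rw [hδ]
    have : (0 : ℝ) < N * Real.log L := by linarith
    positivity
  have hδL : 1 / δ ≤ L := by
    rw [hδ, one_div_div, div_le_iff₀ (by linarith)]
    nlinarith
  have hU0 : 0 < U := by rw [hU]; positivity
  have hT0 : 0 < T := by rw [hT]; positivity
  have hT1 : 1 ≤ T := by rw [hT]; exact one_le_pow₀ hL1
  have hx0 : 0 < x := by linarith
  have hU4 : 4 ≤ U := by
    rw [hU]
    calc (4 : ℝ) ≤ L := hL4
      _ = L ^ 1 := (pow_one L).symm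
      _ ≤ L ^ N := pow_le_pow_right₀ hL1 (by omega)
  have hlx0 : 0 < Real.log x := by
    have : (0 : ℝ) ≤ k := Nat.cast_nonneg k
    linarith
  have hlx1 : 1 ≤ Real.log x := by
    have : (0 : ℝ) ≤ k := Nat.cast_nonneg k
    linarith
  have hσ2 : σ ≤ 2 := by linarith
  -- the bounds for the Dirichlet series
  obtain ⟨M1, hM1⟩ : ∃ M1 : ℝ, M1 = Cd * (3 * L) * L * k.factorial * (2 / δ) ^ k := ⟨_, rfl⟩
  obtain ⟨M2, hM2⟩ : ∃ M2 : ℝ, M2 = 4 * (k + 1).factorial * (2 * L) ^ (k + 2) := ⟨_, rfl⟩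
  have hM10 : 0 ≤ M1 := by rw [hM1]; positivity
  have hM20 : 0 ≤ M2 := by rw [hM2]; positivity
  have b1 : ∀ t : ℝ, |t| ≤ U - 2 →
      ‖LSeries (fun n => al χ n * (Real.log n : ℂ) ^ (k + 1)) (σ + t * Complex.I)‖ ≤ M1 := by
    intro t ht
    have hre : ((σ : ℂ) + t * Complex.I).re = σ := by simp
    have him : ((σ : ℂ) + t * Complex.I).im = t := by simp
    rw [ser χ hχ k _ (by rw [hre]; exact hσ1)]
    refine (hder q χ δ U k _ hχ hδ0 hδ8 (by linarith) hZ (by rw [hre]; exact hσ1)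
      (by rw [hre]; exact hσδ) (by rw [him]; exact ht)).trans ?_
    rw [hM1]
    have e1 : Cd * Real.log (q * (U + 3) / δ) / δ ≤ Cd * (3 * L) * L := by
      calc Cd * Real.log (q * (U + 3) / δ) / δ
          = Cd * Real.log (q * (U + 3) / δ) * (1 / δ) := by ring
        _ ≤ Cd * (3 * L) * (1 / δ) := by gcongr
        _ ≤ Cd * (3 * L) * L := by gcongr
    gcongr
  have b2 : ∀ t : ℝ,
      ‖LSeries (fun n => al χ n * (Real.log n : ℂ) ^ (k + 1)) (σ + t * Complex.I)‖ ≤ M2 := by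
    intro t
    refine (tr (al χ) (k + 1) σ t (al_norm χ) hσ1 hσ2).trans ?_
    rw [hM2]
    have e1 : 2 / (σ - 1) ≤ 2 * L := by
      rw [div_le_iff₀ (by linarith)]
      rw [div_le_iff₀ hL0] at hσL
      linarith
    have e2 : 0 ≤ 2 / (σ - 1) := div_nonneg (by norm_num) (by linarith)
    gcongr
  have b3 := hgau (al χ) (k + 1) σ T x M1 M2 (U - 2) (al_norm χ) hσ1 hT1 hx0 hM10 hM20
    (by linarith) b1 b2
  have b4 := hloc (al χ) (k + 1) σ T x (al_norm χ) hσ1 hσ2 hx3 (by push_cast; linarith)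
    (by push_cast; linarith) hTx
  -- the exponential factor
  have hexp : Real.exp (-((U - 2) ^ 2 / (4 * T ^ 2))) ≤ Real.exp (-L ^ 2) := by
    rw [Real.exp_le_exp, neg_le_neg_iff, le_div_iff₀ (by positivity)]
    have e1 : T ^ 2 * L ^ 4 ≤ U ^ 2 := by
      rw [hT, hU, ← pow_mul, ← pow_mul, ← pow_add]
      exact pow_le_pow_right₀ hL1 (by omega)
    have e2 : U / 2 ≤ U - 2 := by linarith
    have e3 : (U / 2) ^ 2 ≤ (U - 2) ^ 2 := pow_le_pow_left₀ (by linarith) e2 2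
    have e4 : 16 ≤ L ^ 2 := by nlinarith
    have e5 : L ^ 2 * (4 * T ^ 2) * 4 ≤ T ^ 2 * L ^ 4 := by
      have : L ^ 2 * 16 ≤ L ^ 4 := by nlinarith
      nlinarith [sq_nonneg T]
    nlinarith
  -- `M1 / (log x)^(k+1)`
  have hm1 : M1 / Real.log x ^ (k + 1) ≤ 3 * Cd * L ^ 2 * Real.exp (-(2 * (k : ℝ))) := by
    have f1 : ((k.factorial : ℕ) : ℝ) ≤ (k : ℝ) ^ k := by exact_mod_cast Nat.factorial_le_pow k
    have f2 : 2 * (k : ℝ) / (δ * Real.log x) ≤ 1 / 10 := by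
      rw [div_le_iff₀ (by positivity)]
      have g1 : N * c * Real.log L / 2 ≤ δ * Real.log x := by
        rw [hδ]
        calc (N : ℝ) * c * Real.log L / 2 = N * Real.log L / L * (c * L / 2) := by
              field_simp
          _ ≤ N * Real.log L / L * Real.log x := by
              apply mul_le_mul_of_nonneg_left hxL
              have : (0 : ℝ) ≤ N * Real.log L := by linarith
              positivity
      linarith
    have f3 : (1 / 10 : ℝ) ^ k ≤ Real.exp (-(2 * (k : ℝ))) := by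
      have : Real.exp (-(2 * (k : ℝ))) = Real.exp (-2) ^ k := by
        rw [← Real.exp_nat_mul]; congr 1; ring
      rw [this]
      apply pow_le_pow_left₀ (by norm_num)
      rw [Real.exp_neg, one_div]
      apply inv_anti₀ (Real.exp_pos _)
      have h1 := Real.exp_one_lt_d9
      have h2 : Real.exp 2 = Real.exp 1 * Real.exp 1 := by rw [← Real.exp_add]; norm_num
      rw [h2]
      have h3 : 0 < Real.exp 1 := Real.exp_pos 1
      nlinarith
    calc M1 / Real.log x ^ (k + 1)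
        = 3 * Cd * L ^ 2 * (k.factorial * (2 / δ) ^ k / Real.log x ^ (k + 1)) := by
          rw [hM1]; ring
      _ ≤ 3 * Cd * L ^ 2 * ((k : ℝ) ^ k * (2 / δ) ^ k / Real.log x ^ k) := by
          gcongr
          exact Nat.le_succ k
      _ = 3 * Cd * L ^ 2 * (2 * (k : ℝ) / (δ * Real.log x)) ^ k := by
          rw [← mul_pow, ← div_pow]
          congr 2
          field_simp
      _ ≤ 3 * Cd * L ^ 2 * (1 / 10) ^ k := by gcongr
      _ ≤ _ := by gcongr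
  -- `M2 exp(-L²)`
  have hm2 : M2 * Real.exp (-L ^ 2) / Real.log x ^ (k + 1) ≤ 4 * Real.exp (-L) := by
    have f0 : M2 * Real.exp (-L ^ 2) / Real.log x ^ (k + 1) ≤ M2 * Real.exp (-L ^ 2) :=
      div_le_self (by positivity) (one_le_pow₀ hlx1)
    refine f0.trans ?_
    have f1 : (((k + 1).factorial : ℕ) : ℝ) ≤ L ^ (k + 1) := by
      have g1 : (((k + 1).factorial : ℕ) : ℝ) ≤ ((k + 1 : ℕ) : ℝ) ^ (k + 1) := by
        exact_mod_cast Nat.factorial_le_pow (k + 1)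
      refine g1.trans (pow_le_pow_left₀ (Nat.cast_nonneg _) ?_ _)
      push_cast
      linarith
    have f2 : (2 * L) ^ (k + 2) ≤ L ^ (2 * (k + 2)) := by
      rw [pow_mul]
      apply pow_le_pow_left₀ (by linarith)
      nlinarith
    have f3 : L ^ (k + 1) * L ^ (2 * (k + 2)) = Real.exp ((3 * (k : ℝ) + 5) * Real.log L) := by
      rw [← pow_add]
      have : L ^ (k + 1 + 2 * (k + 2)) = Real.exp (Real.log L * ((k + 1 + 2 * (k + 2) : ℕ) : ℝ)) := by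
        rw [mul_comm (Real.log L), Real.exp_nat_mul, Real.exp_log hL0]
      rw [this]
      congr 1
      push_cast
      ring
    calc M2 * Real.exp (-L ^ 2) = 4 * ((k + 1).factorial * (2 * L) ^ (k + 2)) * Real.exp (-L ^ 2) := by
          rw [hM2]; ring
      _ ≤ 4 * (L ^ (k + 1) * L ^ (2 * (k + 2))) * Real.exp (-L ^ 2) := by gcongr
      _ = 4 * (Real.exp ((3 * (k : ℝ) + 5) * Real.log L) * Real.exp (-L ^ 2)) := by
          rw [f3]; ring
      _ ≤ 4 * (Real.exp L * Real.exp (-L ^ 2)) := by gcongr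
      _ ≤ 4 * Real.exp (-L) := by
          rw [← Real.exp_add]
          gcongr
          nlinarith
  -- assembly
  have hnorm : ‖((Real.log x : ℝ) : ℂ) ^ (k + 1) * Dk (al χ) 0 σ T x‖ =
      Real.log x ^ (k + 1) * ‖Dk (al χ) 0 σ T x‖ := by
    rw [norm_mul, norm_pow, Complex.norm_real, Real.norm_of_nonneg hlx0.le]
  have htri : Real.log x ^ (k + 1) * ‖Dk (al χ) 0 σ T x‖ ≤
      Cg * (M1 + M2 * Real.exp (-L ^ 2)) +
        Cl * Real.log x ^ (k + 1) * (((k + 1 : ℕ) : ℝ) + 1) / T ^ 2 := by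
    rw [← hnorm]
    have g1 : ((Real.log x : ℝ) : ℂ) ^ (k + 1) * Dk (al χ) 0 σ T x =
        Dk (al χ) (k + 1) σ T x - (Dk (al χ) (k + 1) σ T x -
          ((Real.log x : ℝ) : ℂ) ^ (k + 1) * Dk (al χ) 0 σ T x) := by ring
    rw [g1]
    refine (norm_sub_le _ _).trans (add_le_add (b3.trans ?_) b4)
    gcongr
  have hpos : 0 < Real.log x ^ (k + 1) := by positivity
  rw [← mul_le_mul_iff_right₀ hpos]
  refine htri.trans ?_
  have g2 : Cg * (M1 + M2 * Real.exp (-L ^ 2)) ≤ Real.log x ^ (k + 1) *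
      (Cg * (3 * Cd * L ^ 2 * Real.exp (-(2 * (k : ℝ))) + 4 * Real.exp (-L))) := by
    rw [div_le_iff₀ hpos] at hm1 hm2
    calc Cg * (M1 + M2 * Real.exp (-L ^ 2)) ≤ Cg * (3 * Cd * L ^ 2 * Real.exp (-(2 * (k : ℝ))) *
          Real.log x ^ (k + 1) + 4 * Real.exp (-L) * Real.log x ^ (k + 1)) := by gcongr
      _ = _ := by ring
  have g3 : Cl * Real.log x ^ (k + 1) * (((k + 1 : ℕ) : ℝ) + 1) / T ^ 2 =
      Real.log x ^ (k + 1) * (Cl * (k + 2) / T ^ 2) := by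
    push_cast
    ring
  rw [g3]
  linarith

/-- `K log x ≤ x` for large `x` -/
private theorem sumx_ev1 (K : ℝ) : ∀ᶠ L : ℝ in atTop, K * Real.log L ≤ L := by
  have h := SW.MuChar_ev K 1 1 one_pos
  filter_upwards [h] with L hL
  rwa [pow_one, Real.rpow_one] at hL

private theorem sumx_ev2 (K : ℝ) : ∀ᶠ L : ℝ in atTop, K * Real.log L ^ 2 ≤ L := by
  have h := SW.MuChar_ev K 2 1 one_pos
  filter_upwards [h] with L hL
  rwa [Real.rpow_one] at hL

private theorem sumx_fin {Cd Cg Cl Ct L T R X : ℝ} {B k : ℕ} (hCd : 0 < Cd) (hCg : 0 < Cg)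
    (hCl : 0 < Cl) (hCt : 0 < Ct) (hL1 : 1 ≤ L) (hT : T = L ^ (B + 2))
    (hR : R = Cg * (3 * Cd * L ^ 2 * Real.exp (-(2 * (k : ℝ))) +
      4 * Real.exp (-L)) + Cl * (k + 2) / T ^ 2) (hexpL : X = Real.exp L)
    (hk : (2 * (B : ℝ) + 10) * Real.log L ≤ 2 * (k : ℝ) + 2)
    (x4 : 16 * Ct * Cg * L ^ (2 * B + 2) ≤ X)
    (l9 : 4 * (3 * Real.exp 2 * Ct * Cg * Cd) ≤ L) (l10 : 4 * (Ct * Cl) ≤ L) (l11 : 4 * Ct ≤ L)
    (hkL : (k : ℝ) + 2 ≤ L) (hXp : 0 < X) :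
    Ct * (T * R + 1 / T) ≤ 1 / L ^ B := by
  have hL0 : 0 < L := by linarith
  have hLB : 0 < L ^ B := by positivity
  have hTB : T = L ^ B * L ^ 2 := by rw [hT, pow_add]
  have hT0 : 0 < T := by rw [hT]; positivity
  have hL2 : L ≤ L ^ 2 := by
    calc L = L * 1 := (mul_one L).symm
      _ ≤ L * L := by gcongr
      _ = L ^ 2 := by ring
  have g1 : Ct * (T * (Cg * (3 * Cd * L ^ 2 * Real.exp (-(2 * (k : ℝ)))))) ≤ 1 / 4 * (1 / L ^ B) := by
    have f1 : Real.exp (-(2 * (k : ℝ))) ≤ Real.exp 2 / L ^ (2 * B + 10) := by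
      have e1 : (L : ℝ) ^ (2 * B + 10) = Real.exp (((2 * B + 10 : ℕ) : ℝ) * Real.log L) := by
        rw [Real.exp_nat_mul, Real.exp_log hL0]
      rw [e1, ← Real.exp_sub, Real.exp_le_exp]
      push_cast
      linarith
    have e6 : L ≤ L ^ 6 := by
      calc L = L ^ 1 := (pow_one L).symm
        _ ≤ L ^ 6 := pow_le_pow_right₀ hL1 (by norm_num)
    calc Ct * (T * (Cg * (3 * Cd * L ^ 2 * Real.exp (-(2 * (k : ℝ))))))
        ≤ Ct * (T * (Cg * (3 * Cd * L ^ 2 * (Real.exp 2 / L ^ (2 * B + 10))))) := by gcongr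
      _ = (4 * (3 * Real.exp 2 * Ct * Cg * Cd)) / L ^ 6 * (1 / 4 * (1 / L ^ B)) := by
          rw [hTB]
          have : L ^ (2 * B + 10) = L ^ B * L ^ B * L ^ 10 := by
            rw [← pow_add, ← pow_add]; congr 1; ring
          rw [this]
          field_simp
      _ ≤ 1 * (1 / 4 * (1 / L ^ B)) := by
          apply mul_le_mul_of_nonneg_right _ (by positivity)
          rw [div_le_one (by positivity)]
          linarith
      _ = _ := one_mul _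
  have g2 : Ct * (T * (Cg * (4 * Real.exp (-L)))) ≤ 1 / 4 * (1 / L ^ B) := by
    rw [Real.exp_neg, ← hexpL]
    have e1 : T * L ^ B = L ^ (2 * B + 2) := by rw [hT, ← pow_add]; congr 1; ring
    have e2 : Ct * (T * (Cg * (4 * X⁻¹))) = 16 * Ct * Cg * (T * L ^ B) / X * (1 / 4 * (1 / L ^ B)) := by
      field_simp
      norm_num
    rw [e2, e1]
    calc 16 * Ct * Cg * L ^ (2 * B + 2) / X * (1 / 4 * (1 / L ^ B))
        ≤ 1 * (1 / 4 * (1 / L ^ B)) := by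
          apply mul_le_mul_of_nonneg_right _ (by positivity)
          rw [div_le_one hXp]
          exact x4
      _ = _ := one_mul _
  have g3 : Ct * (T * (Cl * (k + 2) / T ^ 2)) ≤ 1 / 4 * (1 / L ^ B) := by
    have e1 : Ct * (T * (Cl * (k + 2) / T ^ 2)) =
        (4 * (Ct * Cl) * (k + 2)) / L ^ 2 * (1 / 4 * (1 / L ^ B)) := by
      rw [hTB]
      field_simp
    rw [e1]
    have e2 : 4 * (Ct * Cl) * ((k : ℝ) + 2) ≤ L ^ 2 := by
      calc 4 * (Ct * Cl) * ((k : ℝ) + 2) ≤ L * L := by gcongr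
        _ = L ^ 2 := by ring
    calc (4 * (Ct * Cl) * ((k : ℝ) + 2)) / L ^ 2 * (1 / 4 * (1 / L ^ B))
        ≤ 1 * (1 / 4 * (1 / L ^ B)) := by
          apply mul_le_mul_of_nonneg_right _ (by positivity)
          rw [div_le_one (by positivity)]
          exact e2
      _ = _ := one_mul _
  have g4 : Ct * (1 / T) ≤ 1 / 4 * (1 / L ^ B) := by
    have e1 : Ct * (1 / T) = (4 * Ct) / L ^ 2 * (1 / 4 * (1 / L ^ B)) := by
      rw [hTB]
      field_simp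
    rw [e1]
    calc (4 * Ct) / L ^ 2 * (1 / 4 * (1 / L ^ B)) ≤ 1 * (1 / 4 * (1 / L ^ B)) := by
          apply mul_le_mul_of_nonneg_right _ (by positivity)
          rw [div_le_one (by positivity)]
          exact l11.trans hL2
      _ = _ := one_mul _
  calc Ct * (T * R + 1 / T) = Ct * (T * (Cg * (3 * Cd * L ^ 2 * Real.exp (-(2 * (k : ℝ)))))) +
        Ct * (T * (Cg * (4 * Real.exp (-L)))) + Ct * (T * (Cl * (k + 2) / T ^ 2)) +
        Ct * (1 / T) := by rw [hR]; ring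
    _ ≤ 1 / 4 * (1 / L ^ B) + 1 / 4 * (1 / L ^ B) + 1 / 4 * (1 / L ^ B) + 1 / 4 * (1 / L ^ B) := by
        linarith
    _ = 1 / L ^ B := by ring

private theorem sum_small1 (c : ℝ) (B : ℕ) (hc : 0 < c) (hc1 : c ≤ 1) : ∃ N : ℕ, ∃ X0 : ℕ, ∀ X : ℕ,
    X0 ≤ X → ∀ (q : ℕ) [NeZero q] (χ : DirichletCharacter ℂ q), χ ≠ 1 → q ≤ X →
    ZF χ (N * Real.log (Real.log X) / Real.log X) (Real.log X ^ N) →
    ∀ y : ℕ, (X : ℝ) ^ c ≤ y → y ≤ X →
    ‖∑ n ∈ Icc 1 y, al χ n‖ ≤ y / Real.log X ^ B := by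
  obtain ⟨Cd, hCd, hder⟩ := der
  obtain ⟨Cg, hCg, hgau⟩ := gau
  obtain ⟨Cl, hCl, hloc⟩ := loc
  obtain ⟨Ct, hCt, htau⟩ := SW.tauber 0
  obtain ⟨N0, hN0⟩ := exists_nat_ge (20 * (2 * (B : ℝ) + 10) / c)
  obtain ⟨N1, hN1⟩ := exists_nat_ge (1 / c)
  obtain ⟨N, hN⟩ : ∃ N : ℕ, N = N0 + N1 + B + 4 := ⟨_, rfl⟩
  have hNR : (N : ℝ) = N0 + N1 + B + 4 := by rw [hN]; push_cast; ring
  have hNc : 20 * (2 * (B : ℝ) + 10) ≤ N * c := by
    rw [div_le_iff₀ hc] at hN0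
    rw [hNR]
    have : (0 : ℝ) ≤ (N1 + B + 4) * c := by positivity
    linarith
  have hNc1 : 1 ≤ (N : ℝ) * c := by
    have : (0 : ℝ) ≤ B := Nat.cast_nonneg B
    linarith
  have hNpos : (0 : ℝ) < N := by rw [hNR]; positivity
  -- conditions on `L`
  have q1 : ∀ᶠ L : ℝ in atTop, 4 ≤ L := eventually_ge_atTop 4
  have q2 := sumx_ev1 (8 * N)
  have q3 := sumx_ev2 (2 * (3 * (N * c / 40)))
  have q4 := sumx_ev1 (2 * 5)
  have q5 := sumx_ev1 (2 * (2 / c) * (N * c / 40))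
  have q6 : ∀ᶠ L : ℝ in atTop, 2 * (2 / c) * 2 ≤ L := eventually_ge_atTop _
  have q7 := sumx_ev1 (8 * (N * c / 40))
  have q8 : ∀ᶠ L : ℝ in atTop, (16 : ℝ) ≤ L := eventually_ge_atTop _
  have q9 : ∀ᶠ L : ℝ in atTop, 4 * (3 * Real.exp 2 * Ct * Cg * Cd) ≤ L := eventually_ge_atTop _
  have q10 : ∀ᶠ L : ℝ in atTop, 4 * (Ct * Cl) ≤ L := eventually_ge_atTop _
  have q11 : ∀ᶠ L : ℝ in atTop, 4 * Ct ≤ L := eventually_ge_atTop _
  have hlog : Tendsto (fun X : ℕ => Real.log (X : ℝ)) atTop atTop :=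
    Real.tendsto_log_atTop.comp tendsto_natCast_atTop_atTop
  have hLev := hlog.eventually (q1.and (q2.and (q3.and (q4.and (q5.and (q6.and (q7.and (q8.and
    (q9.and (q10.and q11))))))))))
  -- conditions on `X`
  have r1 := (tendsto_natCast_atTop_atTop (R := ℝ)).eventually
    (SW.MuChar_ev 1 (4 * B + 8) c hc)
  have r2 := (tendsto_natCast_atTop_atTop (R := ℝ)).eventually
    (SW.MuChar_ev 1 (2 * B + 4) (c / 2) (by linarith))
  have r3 := (tendsto_natCast_atTop_atTop (R := ℝ)).eventually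
    (SW.MuChar_ev 2 (N + 1) 1 one_pos)
  have r4 := (tendsto_natCast_atTop_atTop (R := ℝ)).eventually
    (SW.MuChar_ev (16 * Ct * Cg) (2 * B + 2) 1 one_pos)
  have r5 : ∀ᶠ X : ℕ in atTop, (9 : ℝ) ≤ (X : ℝ) ^ c :=
    ((tendsto_rpow_atTop hc).comp tendsto_natCast_atTop_atTop).eventually_ge_atTop 9
  obtain ⟨X0, hX0⟩ := eventually_atTop.1 (hLev.and (r1.and (r2.and (r3.and (r4.and r5)))))
  refine ⟨N, max X0 3, fun X hX q _ χ hχ hqX hZ y hy1 hy2 => ?_⟩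
  obtain ⟨⟨l1, l2, l3, l4, l5, l6, l7, l8, l9, l10, l11⟩, x1, x2, x3, x4, x5⟩ :=
    hX0 X ((le_max_left _ _).trans hX)
  have hX3 : 3 ≤ X := (le_max_right _ _).trans hX
  have hXR : (3 : ℝ) ≤ X := by exact_mod_cast hX3
  have hXp : (0 : ℝ) < X := by linarith
  obtain ⟨L, hL⟩ : ∃ L : ℝ, L = Real.log X := ⟨_, rfl⟩
  rw [← hL] at l1 l2 l3 l4 l5 l6 l7 l8 l9 l10 l11 x1 x2 x3 x4 hZ ⊢
  have hL0 : 0 < L := by linarith
  have hL1 : 1 ≤ L := by linarith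
  have hl1 : 1 ≤ Real.log L := by
    rw [Real.le_log_iff_exp_le hL0]
    have := Real.exp_one_lt_d9
    linarith
  have hexpL : Real.exp L = X := by rw [hL, Real.exp_log hXp]
  obtain ⟨δ, hδ⟩ : ∃ δ : ℝ, δ = N * Real.log L / L := ⟨_, rfl⟩
  obtain ⟨U, hU⟩ : ∃ U : ℝ, U = L ^ N := ⟨_, rfl⟩
  obtain ⟨T, hT⟩ : ∃ T : ℝ, T = L ^ (B + 2) := ⟨_, rfl⟩
  rw [← hδ, ← hU] at hZ
  obtain ⟨k, hk⟩ : ∃ k : ℕ, k = ⌊N * c * Real.log L / 40⌋₊ := ⟨_, rfl⟩
  have hk0 : (0 : ℝ) ≤ N * c * Real.log L / 40 := by positivity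
  have hkle : (k : ℝ) ≤ N * c * Real.log L / 40 := by rw [hk]; exact Nat.floor_le hk0
  have hkge : N * c * Real.log L / 40 < k + 1 := by rw [hk]; exact Nat.lt_floor_add_one _
  have hN1' : 1 ≤ (N : ℝ) * Real.log L := by
    have : (1 : ℝ) ≤ N := by
      rw [hNR]
      have h1 : (0 : ℝ) ≤ N0 := Nat.cast_nonneg _
      have h2 : (0 : ℝ) ≤ N1 := Nat.cast_nonneg _
      have h3 : (0 : ℝ) ≤ B := Nat.cast_nonneg _
      linarith
    nlinarith
  have hδ8 : δ ≤ 1 / 8 := by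
    rw [hδ, div_le_iff₀ hL0]
    linarith
  have hδ0 : 0 < δ := by
    rw [hδ]
    have : (0 : ℝ) < N * Real.log L := by linarith
    positivity
  have hδL : 1 / δ ≤ L := by
    rw [hδ, one_div_div, div_le_iff₀ (by linarith)]
    nlinarith
  have hT1 : 1 ≤ T := by rw [hT]; exact one_le_pow₀ hL1
  have hT0 : 0 < T := by linarith
  have hU1 : 1 ≤ U := by rw [hU]; exact one_le_pow₀ hL1
  have hU3 : 3 ≤ U := by
    rw [hU]
    calc (3 : ℝ) ≤ L := by linarith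
      _ = L ^ 1 := (pow_one L).symm
      _ ≤ L ^ N := pow_le_pow_right₀ hL1 (by omega)
  have hk2 : (3 * (k : ℝ) + 5) * Real.log L ≤ L := by
    have e1 : 3 * (k : ℝ) * Real.log L ≤ 3 * (N * c / 40) * Real.log L ^ 2 := by
      have : (k : ℝ) * Real.log L ≤ N * c * Real.log L / 40 * Real.log L := by gcongr
      nlinarith
    nlinarith
  have hkL : (k : ℝ) + 2 ≤ L := by
    have h0 : (0 : ℝ) ≤ N * c / 40 * Real.log L := by positivity
    have h1 : (k : ℝ) ≤ N * c / 40 * Real.log L := by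
      calc (k : ℝ) ≤ N * c * Real.log L / 40 := hkle
        _ = _ := by ring
    linarith
  have hkcL : (k : ℝ) + 2 ≤ c * L / 2 := by
    have e1 : N * c * Real.log L / 40 ≤ c * L / 4 := by
      have : 2 * (2 / c) * (N * c / 40) * Real.log L = (4 / c) * (N * c * Real.log L / 40) := by ring
      rw [this] at l5
      rw [div_mul_eq_mul_div, div_le_iff₀ hc] at l5
      linarith
    have e2 : (2 : ℝ) ≤ c * L / 4 := by
      have : 2 * (2 / c) * 2 = 8 / c := by ring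
      rw [this, div_le_iff₀ hc] at l6
      linarith
    linarith
  have hkT : 4 * ((k : ℝ) + 2) ≤ T := by
    have e1 : 4 * ((k : ℝ) + 2) ≤ L := by
      have h1 : (k : ℝ) ≤ N * c / 40 * Real.log L := by
        calc (k : ℝ) ≤ N * c * Real.log L / 40 := hkle
          _ = _ := by ring
      linarith
    refine e1.trans ?_
    rw [hT]
    calc L = L ^ 1 := (pow_one L).symm
      _ ≤ L ^ (B + 2) := pow_le_pow_right₀ hL1 (by omega)
  -- the size of `q`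
  have hlogq : Real.log (q * (U + 3) / δ) ≤ 3 * L := by
    have hq0 : (0 : ℝ) < q := by
      have := NeZero.ne q
      exact_mod_cast Nat.pos_of_ne_zero this
    have hqR : (q : ℝ) ≤ X := by exact_mod_cast hqX
    rw [Real.log_le_iff_le_exp (by positivity)]
    have e1 : Real.exp (3 * L) = X * X * X := by
      have : 3 * L = L + L + L := by ring
      rw [this, Real.exp_add, Real.exp_add, hexpL]
    have e2 : (U + 3) * L ≤ X := by
      have : (U + 3) * L ≤ 2 * L ^ (N + 1) := by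
        rw [pow_succ, ← hU]
        nlinarith
      rw [Real.rpow_one] at x3
      linarith
    rw [e1]
    calc (q : ℝ) * (U + 3) / δ = q * ((U + 3) * (1 / δ)) := by ring
      _ ≤ q * ((U + 3) * L) := by gcongr
      _ ≤ X * X := by gcongr
      _ ≤ X * X * X := by nlinarith [mul_pos hXp hXp]
  -- `y`
  have hy9 : (9 : ℝ) ≤ y := x5.trans hy1
  have hyp : (0 : ℝ) < y := by linarith
  have hy3 : 3 ≤ y := by
    have : (3 : ℝ) ≤ y := by linarith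
    exact_mod_cast this
  have hyX : (y : ℝ) ≤ X := by exact_mod_cast hy2
  obtain ⟨Ly, hLy⟩ : ∃ Ly : ℝ, Ly = Real.log y := ⟨_, rfl⟩
  have hLy1 : c * L ≤ Ly := by
    have := Real.log_le_log (Real.rpow_pos_of_pos hXp c) hy1
    rw [Real.log_rpow hXp, ← hL, ← hLy] at this
    exact this
  have hLy2 : Ly ≤ L := by rw [hL, hLy]; exact Real.log_le_log hyp hyX
  have hLy0 : 0 < Ly := lt_of_lt_of_le (by positivity) hLy1
  obtain ⟨R, hR⟩ : ∃ R : ℝ, R = Cg * (3 * Cd * L ^ 2 * Real.exp (-(2 * (k : ℝ))) +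
      4 * Real.exp (-L)) + Cl * (k + 2) / T ^ 2 := ⟨_, rfl⟩
  have hR0 : 0 ≤ R := by rw [hR]; positivity
  have hT4 : T ^ 4 ≤ (y : ℝ) := by
    rw [hT, ← pow_mul]
    have : (B + 2) * 4 = 4 * B + 8 := by ring
    rw [this]
    linarith
  have hsum := htau (al χ) y T R (al_norm χ) hy3 hT1 hT4 hR0 (by
    intro x hx1 hx2
    rw [← hLy]
    have hsx : (X : ℝ) ^ (c / 2) ≤ x := by
      refine le_trans ?_ hx1
      rw [Real.le_sqrt (by positivity) (by positivity), ← Real.rpow_natCast, ← Real.rpow_mul hXp.le]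
      have : c / 2 * ((2 : ℕ) : ℝ) = c := by push_cast; ring
      rw [this]
      exact hy1
    have hx0 : 0 < x := lt_of_lt_of_le (Real.rpow_pos_of_pos hXp _) hsx
    have hx3 : 3 ≤ x := by
      refine le_trans ?_ hx1
      rw [Real.le_sqrt (by norm_num) (by positivity)]
      linarith
    have hxL : c * L / 2 ≤ Real.log x := by
      have := Real.log_le_log (Real.rpow_pos_of_pos hXp _) hsx
      rw [Real.log_rpow hXp, ← hL] at this
      linarith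
    rw [hR]
    refine sumx_core hCd hCg hCl hder hgau hloc χ hχ hc l1 hδ hN1' hδ8 hU hT (by omega) hZ ?_ ?_
      ?_ hlogq hkle hk2 hkL (hkcL.trans hxL) hkT hx3 ?_ hxL
    · have : 0 < 1 / Ly := by positivity
      linarith
    · have e1 : 1 / Ly ≤ δ := by
        rw [hδ, div_le_div_iff₀ hLy0 hL0]
        have : 1 ≤ (N : ℝ) * Real.log L * c := by nlinarith
        nlinarith
      linarith
    · have e1 : 1 / L ≤ 1 / Ly := one_div_le_one_div_of_le hLy0 hLy2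
      linarith
    · rw [hT, ← pow_mul]
      have : (B + 2) * 2 = 2 * B + 4 := by ring
      rw [this]
      linarith)
  refine hsum.trans ?_
  rw [pow_zero, div_one]
  have hfin := sumx_fin hCd hCg hCl hCt hL1 hT hR hexpL.symm ?_ ?_ l9 l10 l11 hkL (by linarith)
  · calc Ct * (T * y * R + y / T) = y * (Ct * (T * R + 1 / T)) := by ring
      _ ≤ y * (1 / L ^ B) := by gcongr
      _ = y / L ^ B := by ring
  · have e1 : 20 * (2 * (B : ℝ) + 10) * Real.log L ≤ N * c * Real.log L := by gcongr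
    linarith
  · rw [Real.rpow_one] at x4
    exact x4

theorem sum_small (c : ℝ) (B : ℕ) (hc : 0 < c) : ∃ N : ℕ, ∃ X0 : ℕ, ∀ X : ℕ, X0 ≤ X →
    ∀ (q : ℕ) [NeZero q]
    (χ : DirichletCharacter ℂ q), χ ≠ 1 → q ≤ X →
    ZF χ (N * Real.log (Real.log X) / Real.log X) (Real.log X ^ N) →
    ∀ y : ℕ, (X : ℝ) ^ c ≤ y → y ≤ X →
    ‖∑ n ∈ Icc 1 y, al χ n‖ ≤ y / Real.log X ^ B := by
  obtain ⟨N, X0, h⟩ := sum_small1 (min c 1) B (lt_min hc one_pos) (min_le_right _ _)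
  refine ⟨N, max X0 1, fun X hX q _ χ hχ hq hZ y hy1 hy2 => ?_⟩
  have hX1 : (1 : ℝ) ≤ X := by
    have : 1 ≤ X := (le_max_right _ _).trans hX
    exact_mod_cast this
  exact h X ((le_max_left _ _).trans hX) q χ hχ hq hZ y
    ((Real.rpow_le_rpow_of_exponent_le hX1 (min_le_left _ _)).trans hy1) hy2

end Pool.MP_dd84fd_nt.ZR
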