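import Pool.Agent.Lib.MP_dd84fd_nt.ZR.Defs

/-!
# ZR-Win: the mass of the Gaussian window is `≤ C/T`

`n^(-σ) ≤ 1/n`; for `n` with `x e^(j/T) < n ≤ x e^((j+1)/T)`, `j ∈ ℤ`, the exponential is at most
`exp (-(j_-)²/4)`, `j_- = min(|j|,|j+1|)`, and `∑ 1/n` over such `n` is at most `1/T + 1/(x e^(j/T))`,
which is `≤ 2/T` for `j ≥ -T`...; for `n ≤ x/e` use `exp (-(T²log²(n/x)/4)) ≤ (n/x) · 4/T²`-type bounds
(`v² e^(-T²v²/4) ≤ 4/T²` and `e^(-T² v²/4) ≤ ...`), or compare directly with the integral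
`∫ u^(-1) exp (-(T² log²(u/x)/4)) du = 2 √π / T` (the function is unimodal up to a factor; its maximum is at
most `C/x ≤ C/T`).  Any route is fine; note the summand at `n = 0` is `0` (`0^(-σ) = 0`).
-/

set_option autoImplicit false

namespace Pool.MP_dd84fd_nt.ZR

open Finset

/-- the primitive -/
private noncomputable def Win_g (T x u : ℝ) : ℝ := Real.arctan (T / 2 * (Real.log u - Real.log x))

private theorem Win_deriv (T x u : ℝ) (hu : 0 < u) :
    HasDerivAt (Win_g T x)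
      (1 / (1 + (T / 2 * (Real.log u - Real.log x)) ^ 2) * (T / 2 * u⁻¹)) u := by
  have h1 : HasDerivAt (fun v : ℝ => T / 2 * (Real.log v - Real.log x)) (T / 2 * u⁻¹) u :=
    ((Real.hasDerivAt_log hu.ne').sub_const (Real.log x)).const_mul (T / 2)
  exact h1.arctan

private theorem Win_step (T x : ℝ) (hT : 1 ≤ T) (hx : T ^ 2 ≤ x) (n : ℕ) (hn : 1 ≤ n) :
    (n : ℝ)⁻¹ / (1 + (T / 2 * (Real.log n - Real.log x)) ^ 2) ≤
      8 / T * (Win_g T x ((n : ℝ) + 1) - Win_g T x n) := by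
  have hT0 : 0 < T := by linarith
  have hx0 : 0 < x := lt_of_lt_of_le (by positivity) hx
  have hn1 : (1 : ℝ) ≤ n := by exact_mod_cast hn
  have hn0 : (0 : ℝ) < n := by linarith
  obtain ⟨a, ha⟩ : ∃ a : ℝ, a = T / 2 * (Real.log n - Real.log x) := ⟨_, rfl⟩
  have hpos : ∀ u ∈ Set.Icc (n : ℝ) ((n : ℝ) + 1), 0 < u := fun u hu => lt_of_lt_of_le hn0 hu.1
  have hcont : ContinuousOn (Win_g T x) (Set.Icc (n : ℝ) ((n : ℝ) + 1)) := fun u hu =>
    (Win_deriv T x u (hpos u hu)).continuousAt.continuousWithinAt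
  have hdiff : DifferentiableOn ℝ (Win_g T x) (interior (Set.Icc (n : ℝ) ((n : ℝ) + 1))) :=
    fun u hu => (Win_deriv T x u (hpos u (interior_subset hu))).differentiableAt.differentiableWithinAt
  have hge : ∀ u ∈ interior (Set.Icc (n : ℝ) ((n : ℝ) + 1)),
      T / 8 * ((n : ℝ)⁻¹ / (1 + a ^ 2)) ≤ deriv (Win_g T x) u := by
    intro u hu
    rw [interior_Icc] at hu
    have hu0 : 0 < u := lt_trans hn0 hu.1
    rw [(Win_deriv T x u hu0).deriv]
    obtain ⟨b, hb⟩ : ∃ b : ℝ, b = T / 2 * (Real.log u - Real.log x) := ⟨_, rfl⟩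
    rw [← hb]
    have hlog : Real.log n ≤ Real.log u := Real.log_le_log hn0 hu.1.le
    have hab : a ≤ b := by
      rw [ha, hb]
      gcongr
    have hmain : 1 + b ^ 2 ≤ 2 * (1 + a ^ 2) := by
      rcases le_or_gt u x with hux | hux
      · have hb0 : b ≤ 0 := by
          rw [hb]
          have : Real.log u ≤ Real.log x := Real.log_le_log hu0 hux
          have h2 : Real.log u - Real.log x ≤ 0 := by linarith
          exact mul_nonpos_of_nonneg_of_nonpos (by positivity) h2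
        nlinarith
      · have h3 : T ^ 2 < n + 1 := by linarith [hu.2]
        have h4 : Real.log u - Real.log n ≤ (n : ℝ)⁻¹ := by
          rw [← Real.log_div hu0.ne' hn0.ne']
          have h5 : Real.log (u / n) ≤ u / n - 1 := Real.log_le_sub_one_of_pos (by positivity)
          have h6 : u / n - 1 ≤ (n : ℝ)⁻¹ := by
            rw [div_sub_one hn0.ne', div_le_iff₀ hn0, inv_mul_cancel₀ hn0.ne']
            linarith [hu.2]
          linarith
        obtain ⟨c, hc⟩ : ∃ c : ℝ, c = b - a := ⟨_, rfl⟩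
        have hc0 : 0 ≤ c := by linarith
        have hc1 : c ≤ T / 2 * (n : ℝ)⁻¹ := by
          have : c = T / 2 * (Real.log u - Real.log n) := by rw [hc, ha, hb]; ring
          rw [this]
          gcongr
        have hc2 : 2 * c ^ 2 ≤ 1 := by
          have h7 : c ^ 2 ≤ (T / 2 * (n : ℝ)⁻¹) ^ 2 := by gcongr
          have h8 : (T / 2 * (n : ℝ)⁻¹) ^ 2 = T ^ 2 / (4 * (n : ℝ) ^ 2) := by
            field_simp
            ring
          have h9 : T ^ 2 / (4 * (n : ℝ) ^ 2) ≤ 1 / 2 := by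
            rw [div_le_div_iff₀ (by positivity) (by norm_num)]
            nlinarith
          linarith
        have hbac : b = a + c := by rw [hc]; ring
        rw [hbac]
        nlinarith [sq_nonneg (a - c)]
    have hu2 : u ≤ 2 * n := by linarith [hu.2]
    have e0 : T / 8 * ((n : ℝ)⁻¹ / (1 + a ^ 2)) = (T / 8 * (n : ℝ)⁻¹) / (1 + a ^ 2) := by ring
    rw [one_div_mul_eq_div, e0, div_le_div_iff₀ (by positivity) (by positivity)]
    have e1 : T / 8 * (n : ℝ)⁻¹ * (1 + b ^ 2) ≤ T / 8 * (n : ℝ)⁻¹ * (2 * (1 + a ^ 2)) := by gcongr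
    have e2 : (n : ℝ)⁻¹ ≤ 2 * u⁻¹ := by
      rw [inv_le_comm₀ hn0 (by positivity), mul_inv, inv_inv]
      linarith
    have e3 : T / 8 * (n : ℝ)⁻¹ * (2 * (1 + a ^ 2)) ≤ T / 8 * (2 * u⁻¹) * (2 * (1 + a ^ 2)) := by
      gcongr
    calc T / 8 * (n : ℝ)⁻¹ * (1 + b ^ 2) ≤ T / 8 * (2 * u⁻¹) * (2 * (1 + a ^ 2)) := e1.trans e3
      _ = T / 2 * u⁻¹ * (1 + a ^ 2) := by ring
  have h := (convex_Icc (n : ℝ) ((n : ℝ) + 1)).mul_sub_le_image_sub_of_le_deriv hcont hdiff hge n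
    (by constructor <;> linarith) ((n : ℝ) + 1) (by constructor <;> linarith) (by linarith)
  rw [← ha]
  have h2 : T / 8 * ((n : ℝ)⁻¹ / (1 + a ^ 2)) ≤
      Win_g T x ((n : ℝ) + 1) - Win_g T x n := by
    have e : (n : ℝ) + 1 - n = 1 := by ring
    rw [e, mul_one] at h
    exact h
  calc (n : ℝ)⁻¹ / (1 + a ^ 2) = 8 / T * (T / 8 * ((n : ℝ)⁻¹ / (1 + a ^ 2))) := by
        field_simp
    _ ≤ _ := by gcongr

private theorem Win_term (σ T x : ℝ) (hσ : 1 < σ) (hT : 1 ≤ T) (hx : T ^ 2 ≤ x) (n : ℕ)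
    (hn : 1 ≤ n) :
    (n : ℝ) ^ (-σ) * Real.exp (-(T ^ 2 * Real.log (n / x) ^ 2 / 4)) ≤
      8 / T * (Win_g T x ((n : ℝ) + 1) - Win_g T x n) := by
  refine le_trans ?_ (Win_step T x hT hx n hn)
  have hn1 : (1 : ℝ) ≤ n := by exact_mod_cast hn
  have hn0 : (0 : ℝ) < n := by linarith
  have hx0 : 0 < x := lt_of_lt_of_le (by positivity) hx
  have h1 : (n : ℝ) ^ (-σ) ≤ (n : ℝ)⁻¹ := by
    rw [← Real.rpow_neg_one]
    exact Real.rpow_le_rpow_of_exponent_le hn1 (by linarith)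
  have h2 : T ^ 2 * Real.log (n / x) ^ 2 / 4 = (T / 2 * (Real.log n - Real.log x)) ^ 2 := by
    rw [Real.log_div hn0.ne' hx0.ne']
    ring
  rw [h2, div_eq_mul_inv]
  have h3 : Real.exp (-(T / 2 * (Real.log n - Real.log x)) ^ 2) ≤
      (1 + (T / 2 * (Real.log n - Real.log x)) ^ 2)⁻¹ := by
    rw [Real.exp_neg]
    have h4 := Real.add_one_le_exp ((T / 2 * (Real.log n - Real.log x)) ^ 2)
    exact inv_anti₀ (by positivity) (by linarith)
  exact mul_le_mul h1 h3 (Real.exp_pos _).le (by positivity)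

theorem win : ∃ C : ℝ, 0 < C ∧ ∀ (σ T x : ℝ), 1 < σ → σ ≤ 2 → 1 ≤ T → T ^ 2 ≤ x →
    Summable (fun n : ℕ => (n : ℝ) ^ (-σ) * Real.exp (-(T ^ 2 * Real.log (n / x) ^ 2 / 4))) ∧
    ∑' n : ℕ, (n : ℝ) ^ (-σ) * Real.exp (-(T ^ 2 * Real.log (n / x) ^ 2 / 4)) ≤ C / T := by
  refine ⟨8 * Real.pi, by positivity, ?_⟩
  intro σ T x hσ _ hT hx
  have hT0 : 0 < T := by linarith
  have hnn : ∀ n : ℕ, 0 ≤ (n : ℝ) ^ (-σ) * Real.exp (-(T ^ 2 * Real.log (n / x) ^ 2 / 4)) :=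
    fun n => by positivity
  have hind : ∀ N : ℕ, ∑ n ∈ range (N + 1),
      (n : ℝ) ^ (-σ) * Real.exp (-(T ^ 2 * Real.log (n / x) ^ 2 / 4)) ≤
      8 / T * (Win_g T x ((N : ℝ) + 1) - Win_g T x 1) := by
    intro N
    induction N with
    | zero =>
      have h0 : (0 : ℝ) ^ (-σ) = 0 := Real.zero_rpow (by linarith)
      simp [h0]
    | succ N ih =>
      rw [sum_range_succ]
      have h1 := Win_term σ T x hσ hT hx (N + 1) (by omega)
      push_cast at h1 ih ⊢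
      calc _ ≤ 8 / T * (Win_g T x ((N : ℝ) + 1) - Win_g T x 1) +
            8 / T * (Win_g T x ((N : ℝ) + 1 + 1) - Win_g T x ((N : ℝ) + 1)) := add_le_add ih h1
        _ = _ := by ring
  have hpi : ∀ u v : ℝ, Win_g T x u - Win_g T x v ≤ Real.pi := by
    intro u v
    unfold Win_g
    have h1 := Real.arctan_lt_pi_div_two (T / 2 * (Real.log u - Real.log x))
    have h2 := Real.neg_pi_div_two_lt_arctan (T / 2 * (Real.log v - Real.log x))
    linarith
  have hb : ∀ N : ℕ, ∑ n ∈ range N,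
      (n : ℝ) ^ (-σ) * Real.exp (-(T ^ 2 * Real.log (n / x) ^ 2 / 4)) ≤ 8 * Real.pi / T := by
    intro N
    rcases N with _ | N
    · simp
      positivity
    · refine (hind N).trans ?_
      calc 8 / T * (Win_g T x ((N : ℝ) + 1) - Win_g T x 1) ≤ 8 / T * Real.pi := by
            gcongr
            exact hpi _ _
        _ = 8 * Real.pi / T := by ring
  exact ⟨summable_of_sum_range_le hnn hb, Real.tsum_le_of_sum_range_le hnn hb⟩

end Pool.MP_dd84fd_nt.ZR
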